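import Pool.Agent.R23.TT.Stm

set_option autoImplicit false

namespace Pool.Agent.R23.TT

open Finset

/-- combination of the six inequalities -/
theorem fin_all (h1 : S_FIN1) (h2 : S_FIN2) (h3 : S_FIN3) (h4 : S_FIN4) (h5 : S_FIN5)
    (h6 : S_FIN6) (a b r : ℝ) (ha : 0 ≤ a) (hb : 0 ≤ b) (hr : 0 ≤ r)
    (hc : 3 / 25 * (a + b + r) ^ 2 ≤ a * b + b ^ 2 / 2) :
    4 / 9 * (a + b + r) ^ 3 ≤ (a + b) ^ 3 / 2 + 3 / 2 * r * (a + b) ^ 2 - 3 / 2 * (a + b) * r ^ 2
      + 1 / 2 * (r ^ 3 + |r + (a - b)| ^ 3 - 2 * (max (r - b) 0) ^ 3) + 3 * b * r ^ 2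
      + max 0 (r ^ 3 - 9 / 8 * r * (max (r - a) 0) ^ 2) := by
  rcases le_total b r with hbr | hrb
  · have e1 : |r + (a - b)| = r + a - b := by rw [abs_of_nonneg (by linarith)]; ring
    have e2 : max (r - b) 0 = r - b := max_eq_left (by linarith)
    rw [e1, e2]
    rcases le_total a r with har | hra
    · have e3 : max (r - a) 0 = r - a := max_eq_left (by linarith)
      rw [e3]
      have := h1 a b r ha hb hbr har hc
      have hm := le_max_right 0 (r ^ 3 - 9 / 8 * r * (r - a) ^ 2)
      nlinarith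
    · have e3 : max (r - a) 0 = 0 := max_eq_right (by linarith)
      rw [e3]
      have := h2 a b r ha hb hbr hra
      have hm := le_max_right 0 (r ^ 3 - 9 / 8 * r * 0 ^ 2)
      nlinarith
  · have e2 : max (r - b) 0 = 0 := max_eq_right (by linarith)
    rw [e2]
    rcases le_total b (r + a) with hbra | hbra
    · have e1 : |r + (a - b)| = r + a - b := by rw [abs_of_nonneg (by linarith)]; ring
      rw [e1]
      rcases le_total a r with har | hra
      · have e3 : max (r - a) 0 = r - a := max_eq_left (by linarith)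
        rw [e3]
        have := h3 a b r ha hr hrb hbra har hc
        have hm := le_max_right 0 (r ^ 3 - 9 / 8 * r * (r - a) ^ 2)
        nlinarith
      · have e3 : max (r - a) 0 = 0 := max_eq_right (by linarith)
        rw [e3]
        have := h4 a b r ha hr hrb hbra hra
        have hm := le_max_right 0 (r ^ 3 - 9 / 8 * r * 0 ^ 2)
        nlinarith
    · have e1 : |r + (a - b)| = b - a - r := by rw [abs_of_nonpos (by linarith)]; ring
      rw [e1]
      rcases le_total a r with har | hra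
      · have e3 : max (r - a) 0 = r - a := max_eq_left (by linarith)
        rw [e3]
        have := h5 a b r ha hr hbra har
        have hm := le_max_right 0 (r ^ 3 - 9 / 8 * r * (r - a) ^ 2)
        nlinarith
      · have e3 : max (r - a) 0 = 0 := max_eq_right (by linarith)
        rw [e3]
        have := h6 a b r ha hr hbra hra
        have hm := le_max_right 0 (r ^ 3 - 9 / 8 * r * 0 ^ 2)
        nlinarith

theorem x2aux (β r n : ℝ) (hβ0 : 0 ≤ β) (hr0 : 0 ≤ r) (hβn : β ≤ n) (hrn : r ≤ n) :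
    3 * β * r ^ 2 - 6 * n ^ 2 ≤ 6 * ((β - 1) * (r * (r - 1) / 2)) := by
  have q1 : r ^ 2 ≤ n ^ 2 := by nlinarith
  have q2 : β * r ≤ n ^ 2 := by nlinarith
  have e : 6 * ((β - 1) * (r * (r - 1) / 2)) = 3 * β * r ^ 2 - 3 * (β * r) - 3 * r ^ 2 + 3 * r := by
    ring
  rw [e]
  linarith

theorem finaux (n P Q G F X Y T : ℝ) (h1 : 4 / 9 * n ^ 3 ≤ P + Q + G)
    (h2 : P - 40 * n ^ 2 ≤ 3 * (2 * F)) (h3 : Q - 6 * n ^ 2 ≤ 6 * X) (h4 : G - 20 * n ^ 2 ≤ 6 * Y)
    (h5 : F + X + Y ≤ T) : 2 / 27 * n ^ 3 - 100 * n ^ 2 ≤ T := by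
  have : 0 ≤ n ^ 2 := sq_nonneg n
  linarith

theorem qaux (n : ℝ) (hn : 25 ≤ n) : 3 / 25 * n ^ 2 ≤ (1 / 4 : ℝ) * (n * (n - 1) / 2) := by
  nlinarith

theorem ordered_bound (hTRI : S_TRI) (hF1 : S_F1) (hX2 : S_X2) (hX3 : S_X3) (hCNT : S_CNT)
    (hSEQ : S_SEQ) (hBLUE : S_BLUE) (hRUN : S_RUN)
    (h1 : S_FIN1) (h2 : S_FIN2) (h3 : S_FIN3) (h4 : S_FIN4) (h5 : S_FIN5) (h6 : S_FIN6)
    (n : ℕ) (hn : 25 ≤ n) (T : Finset (Finset (Fin n))) (a : Fin n → Bool) (hO : Ord T a)
    (hcol : ∀ b : Bool, (1 / 4 : ℝ) * ((n : ℝ) * ((n : ℝ) - 1) / 2) ≤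
      (((univ : Finset (Fin n × Fin n)).filter (fun p => p.1 < p.2 ∧ a p.2 = b)).card : ℝ)) :
    2 / 27 * (n : ℝ) ^ 3 - 100 * (n : ℝ) ^ 2 ≤ (T.card : ℝ) := by
  obtain ⟨m, A, hR⟩ := hRUN n a (by omega)
  set α := al a m A with hα
  set β := be a m A with hβ
  have hmn := hR.lt
  -- alpha + beta = m
  have hab : α + β = m := by
    have e : (univ.filter (fun j : Fin n => j.val < m)).card = m := by
      have h : (univ.filter (fun j : Fin n => j.val < m)).image Fin.val = range m := by
        ext j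
        simp only [mem_image, mem_filter, mem_univ, true_and, mem_range]
        constructor
        · rintro ⟨i, hi, rfl⟩
          exact hi
        · intro hj
          exact ⟨⟨j, by omega⟩, hj, rfl⟩
      have h2 := card_image_of_injective (univ.filter (fun j : Fin n => j.val < m))
        Fin.val_injective
      rw [h, card_range] at h2
      exact h2.symm
    have : (univ.filter (fun j : Fin n => j.val < m)).card = α + β := by
      rw [hα, hβ, al, be, ← card_filter_add_card_filter_not (s := univ.filter (fun j : Fin n => j.val < m)) (p := fun j => a j = A)]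
      rw [filter_filter, filter_filter]
    omega
  -- the colour different from A
  have hblue : (1 / 4 : ℝ) * ((n : ℝ) * ((n : ℝ) - 1) / 2) ≤ (α : ℝ) * β + (β : ℝ) ^ 2 / 2 := by
    refine le_trans (hcol (!A)) (le_trans (le_of_eq ?_) (hBLUE n a m A hR))
    congr 2
    apply filter_congr
    intro p _
    cases A <;> cases a p.2 <;> simp
  -- the sequence
  let y : ℕ → ℤ := fun j => if h : j < n then (if a ⟨j, h⟩ = A then 1 else -1) else 1
  have hy1 : ∀ j, y j = 1 ∨ y j = -1 := by
    intro j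
    simp only [y]
    split_ifs <;> simp
  have hy2 : ∀ j : Fin n, y j.val = if a j = A then 1 else -1 := by
    intro j
    simp only [y, j.isLt, dif_pos]
  have hcnt := hCNT n a m A y hR hy2
  have hseq := hSEQ m (n - m) y hy1
  have hnm : ((n - m : ℕ) : ℤ) = (n : ℤ) - m := by omega
  have hnmR : ((n - m : ℕ) : ℝ) = (n : ℝ) - m := by
    rw [Nat.cast_sub hmn.le]
  rw [hnm, ← hcnt] at hseq
  -- counting signs
  have hneg : ((range m).filter (fun j => y j = -1)).card = β := by
    rw [hβ, be]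
    symm
    apply card_bij (fun (j : Fin n) _ => j.val)
    · intro j hj
      simp only [mem_filter, mem_univ, true_and] at hj
      simp only [mem_filter, mem_range]
      exact ⟨hj.1, by rw [hy2]; simp [hj.2]⟩
    · intro i _ j _ h
      exact Fin.ext h
    · intro j hj
      simp only [mem_filter, mem_range] at hj
      refine ⟨⟨j, by omega⟩, ?_, rfl⟩
      simp only [mem_filter, mem_univ, true_and]
      refine ⟨hj.1, ?_⟩
      intro h
      have := hy2 ⟨j, by omega⟩
      simp only [h, if_true] at this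
      omega
  have hpos : ((range m).filter (fun j => ¬ y j = -1)).card = α := by
    have := card_filter_add_card_filter_not (s := range m) (p := fun j => y j = -1)
    rw [card_range] at this
    omega
  have hsum : ∑ k ∈ range m, y k = (α : ℤ) - β := by
    rw [← sum_filter_add_sum_filter_not (range m) (fun j => y j = -1)]
    have s1 : ∑ k ∈ (range m).filter (fun j => y j = -1), y k = -(β : ℤ) := by
      rw [sum_congr rfl (g := fun _ => (-1 : ℤ)) (fun k hk => (mem_filter.1 hk).2)]
      simp [hneg]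
    have s2 : ∑ k ∈ (range m).filter (fun j => ¬ y j = -1), y k = (α : ℤ) := by
      rw [sum_congr rfl (g := fun _ => (1 : ℤ)) (fun k hk => by
        rcases hy1 k with h | h
        · exact h
        · exact absurd h (mem_filter.1 hk).2)]
      simp [hpos]
    rw [s1, s2]
    ring
  rw [hsum, hneg, hnmR] at hseq
  have hx2 := hX2 n T a m A hO hR
  have hx3 := hX3 n T a m A hO hR
  -- the decomposition
  have hT : (T.card : ℝ) = ((Tri T).card : ℝ) := by rw [hTRI n T hO.three]
  have hdec : (F1 a m).card + (X2 T a m A).card + (X3 T a m A).card ≤ (Tri T).card := by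
    have d1 := card_filter_add_card_filter_not (s := Tri T) (p := fun p => p.2.1.val < m)
    have d2 := card_filter_add_card_filter_not
      (s := (Tri T).filter (fun p => ¬ p.2.1.val < m)) (p := fun p => (p.1.val < m ∧ a p.1 ≠ A))
    have e2 : ((Tri T).filter (fun p => ¬ p.2.1.val < m)).filter
        (fun p => (p.1.val < m ∧ a p.1 ≠ A)) = X2 T a m A := by
      rw [filter_filter]
      unfold X2
      apply filter_congr
      intro p _
      rw [not_lt]
    have e3 : ((Tri T).filter (fun p => ¬ p.2.1.val < m)).filter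
        (fun p => ¬ (p.1.val < m ∧ a p.1 ≠ A)) = X3 T a m A := by
      rw [filter_filter]
      unfold X3
      apply filter_congr
      intro p _
      rw [not_lt]
    rw [e2, e3] at d2
    have d3 := card_le_card (hF1 n T a m A hO hR)
    omega
  have hdecR : ((F1 a m).card : ℝ) + ((X2 T a m A).card : ℝ) + ((X3 T a m A).card : ℝ) ≤
      (T.card : ℝ) := by
    rw [hT]
    exact_mod_cast hdec
  -- real variables
  have hnR : (25 : ℝ) ≤ n := by exact_mod_cast hn
  have hα0 : (0 : ℝ) ≤ α := Nat.cast_nonneg _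
  have hβ0 : (0 : ℝ) ≤ β := Nat.cast_nonneg _
  have hmR : (m : ℝ) = (α : ℝ) + β := by rw [← hab]; push_cast; ring
  have hr0 : (0 : ℝ) ≤ (n : ℝ) - m := by
    have : (m : ℝ) ≤ n := by exact_mod_cast hmn.le
    linarith
  set r : ℝ := (n : ℝ) - m with hr
  have hsn : (α : ℝ) + β + r = n := by rw [hr, hmR]; ring
  have hfin := fin_all h1 h2 h3 h4 h5 h6 α β r hα0 hβ0 hr0 (by
    rw [hsn]
    exact le_trans (qaux _ hnR) hblue)
  rw [hsn] at hfin
  have hcast : (((n : ℤ) - (m : ℤ) + ((α : ℤ) - (β : ℤ)) : ℤ) : ℝ) = r + ((α : ℝ) - β) := by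
    push_cast
    rw [hr]
  rw [hcast] at hseq
  have hcast2 : ((2 * ((F1 a m).card : ℤ) : ℤ) : ℝ) = 2 * ((F1 a m).card : ℝ) := by push_cast; ring
  rw [hcast2] at hseq
  rw [hmR] at hseq
  have hrn : r ≤ n := by linarith [hsn]
  have hβn : (β : ℝ) ≤ n := by linarith [hsn]
  have hx2' : 3 * (β : ℝ) * r ^ 2 - 6 * (n : ℝ) ^ 2 ≤ 6 * ((X2 T a m A).card : ℝ) := by
    refine le_trans (x2aux β r n hβ0 hr0 hβn hrn) ?_
    exact mul_le_mul_of_nonneg_left hx2 (by norm_num)
  have hs2 : ((α : ℝ) + β + r) ^ 2 = (n : ℝ) ^ 2 := by rw [hsn]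
  rw [hs2] at hseq
  rw [← hα] at hx3
  exact finaux _ _ _ _ _ _ _ _ hfin hseq hx2' hx3 hdecR

end Pool.Agent.R23.TT
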