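import Pool.Agent.R23.TT.Stm

set_option autoImplicit false

namespace Pool.Agent.R23.TT

theorem two_lt_pairs {α : Type} [LinearOrder α] (B : Finset α) :
    2 * ((B ×ˢ B).filter (fun p => p.1 < p.2)).card ≤ B.card ^ 2 := by
  classical
  have h1 : ((B ×ˢ B).filter (fun p => p.2 < p.1)).card
      = ((B ×ˢ B).filter (fun p => p.1 < p.2)).card := by
    refine Finset.card_bij (fun p _ => (p.2, p.1)) ?_ ?_ ?_
    · intro p hp
      simp only [Finset.mem_filter, Finset.mem_product] at hp ⊢
      exact ⟨⟨hp.1.2, hp.1.1⟩, hp.2⟩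
    · intro p _ q _ h
      simp only [Prod.mk.injEq] at h
      exact Prod.ext h.2 h.1
    · intro p hp
      simp only [Finset.mem_filter, Finset.mem_product] at hp
      refine ⟨(p.2, p.1), ?_, rfl⟩
      simp only [Finset.mem_filter, Finset.mem_product]
      exact ⟨⟨hp.1.2, hp.1.1⟩, hp.2⟩
  have h2 : Disjoint ((B ×ˢ B).filter (fun p => p.1 < p.2))
      ((B ×ˢ B).filter (fun p => p.2 < p.1)) := by
    rw [Finset.disjoint_filter]
    intro p _ h h'
    exact absurd h' (not_lt.2 h.le)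
  have h3 : (((B ×ˢ B).filter (fun p => p.1 < p.2)) ∪
      ((B ×ˢ B).filter (fun p => p.2 < p.1))).card ≤ (B ×ˢ B).card := by
    apply Finset.card_le_card
    intro p hp
    simp only [Finset.mem_union, Finset.mem_filter] at hp
    rcases hp with hp | hp
    · exact hp.1
    · exact hp.1
  rw [Finset.card_union_of_disjoint h2, Finset.card_product, h1] at h3
  rw [pow_two]
  omega

theorem blue_core {α : Type} [LinearOrder α] (P : Finset (α × α)) (A B : Finset α)
    (h : ∀ p ∈ P, p.1 < p.2 ∧ p.2 ∈ B ∧ (p.1 ∈ A ∨ p.1 ∈ B)) :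
    2 * P.card ≤ 2 * (A.card * B.card) + B.card ^ 2 := by
  classical
  have h1 : P.card ≤ ((A ×ˢ B) ∪ ((B ×ˢ B).filter (fun p => p.1 < p.2))).card := by
    apply Finset.card_le_card
    intro p hp
    obtain ⟨h1, h2, h3⟩ := h p hp
    simp only [Finset.mem_union, Finset.mem_product, Finset.mem_filter]
    rcases h3 with h3 | h3
    · exact Or.inl ⟨h3, h2⟩
    · exact Or.inr ⟨⟨h3, h2⟩, h1⟩
  have h2 := Finset.card_union_le (A ×ˢ B) ((B ×ˢ B).filter (fun p => p.1 < p.2))
  have h3 := two_lt_pairs B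
  rw [Finset.card_product] at h2
  omega

theorem t_BLUE : S_BLUE := by
  intro n a m A hR
  have key := blue_core
    ((Finset.univ : Finset (Fin n × Fin n)).filter (fun p => p.1 < p.2 ∧ a p.2 ≠ A))
    (Finset.univ.filter (fun j : Fin n => j.val < m ∧ a j = A))
    (Finset.univ.filter (fun j : Fin n => j.val < m ∧ a j ≠ A)) (by
      intro p hp
      simp only [Finset.mem_filter, Finset.mem_univ, true_and] at hp ⊢
      have hm : p.2.val < m := by
        by_contra hcon
        exact hp.2 (hR.tail p.2 (not_lt.1 hcon))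
      have hm' : p.1.val < m := lt_trans hp.1 hm
      refine ⟨hp.1, ⟨hm, hp.2⟩, ?_⟩
      by_cases hA : a p.1 = A
      · exact Or.inl ⟨hm', hA⟩
      · exact Or.inr ⟨hm', hA⟩)
  have key' : (2 : ℝ) * (((Finset.univ : Finset (Fin n × Fin n)).filter
      (fun p => p.1 < p.2 ∧ a p.2 ≠ A)).card : ℝ) ≤
      2 * ((al a m A : ℝ) * (be a m A : ℝ)) + (be a m A : ℝ) ^ 2 := by
    exact_mod_cast key
  linarith

end Pool.Agent.R23.TT
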