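import Pool.Agent.R23.TT.Stm

set_option autoImplicit false

namespace Pool.Agent.R23.TT

open Finset

theorem cnt_inner {n : ℕ} (a : Fin n → Bool) (m : ℕ) (A : Bool) (y : ℕ → ℤ) (hR : Run a m A)
    (hy : ∀ j : Fin n, y j.val = if a j = A then 1 else -1) (j : Fin n) (hj : j.val < m) :
    2 * (∑ k : Fin n, if (j < k ∧ a j = a k) then (1 : ℤ) else 0) =
      ((m : ℤ) - 1 - j.val) + ((n : ℤ) - m) + y j.val * (((n : ℤ) - m) +
        ∑ k ∈ Ico (j.val + 1) m, y k) := by
  have hmn : m < n := hR.lt
  have h1 : ∀ k : Fin n, 2 * (if (j < k ∧ a j = a k) then (1 : ℤ) else 0) =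
      (fun t : ℕ => if j.val < t then 1 + y j.val * y t else 0) k.val := by
    intro k
    have e : (j < k) ↔ (j.val < k.val) := Fin.lt_def
    simp only
    rw [hy j, hy k]
    by_cases hjk : j.val < k.val
    · have hjk' : j < k := e.mpr hjk
      rcases Bool.eq_false_or_eq_true (a j) with h | h <;>
      rcases Bool.eq_false_or_eq_true (a k) with h' | h' <;>
      rcases Bool.eq_false_or_eq_true A with h'' | h'' <;>
      simp [h, h', h'', hjk, hjk']
    · have hjk' : ¬ j < k := fun h => hjk (e.mp h)
      simp [hjk, hjk']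
  rw [Finset.mul_sum, Finset.sum_congr rfl (fun k _ => h1 k),
    Fin.sum_univ_eq_sum_range (fun t : ℕ => if j.val < t then 1 + y j.val * y t else 0) n,
    ← Finset.sum_filter]
  have h2 : (range n).filter (fun t => j.val < t) = Ico (j.val + 1) n := by
    ext t
    simp only [mem_filter, mem_range, mem_Ico]
    omega
  rw [h2, ← Finset.sum_Ico_consecutive _ (show j.val + 1 ≤ m by omega) hmn.le]
  have h3 : ∑ k ∈ Ico m n, (1 + y j.val * y k) = ((n : ℤ) - m) * (1 + y j.val) := by
    have : ∀ k ∈ Ico m n, (1 + y j.val * y k) = 1 + y j.val := by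
      intro k hk
      rw [mem_Ico] at hk
      have := hy ⟨k, hk.2⟩
      rw [hR.tail ⟨k, hk.2⟩ hk.1] at this
      simp only [if_true] at this
      rw [this]; ring
    rw [Finset.sum_congr rfl this, Finset.sum_const, Nat.card_Ico, nsmul_eq_mul,
      Nat.cast_sub hmn.le]
  have h4 : ∑ k ∈ Ico (j.val + 1) m, (1 + y j.val * y k) =
      ((m : ℤ) - 1 - j.val) + y j.val * ∑ k ∈ Ico (j.val + 1) m, y k := by
    rw [Finset.sum_add_distrib, Finset.sum_const, Nat.card_Ico, nsmul_eq_mul,
      Nat.cast_sub (show j.val + 1 ≤ m by omega), ← Finset.mul_sum]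
    push_cast
    ring
  rw [h3, h4]
  ring

theorem t_CNT : S_CNT := by
  intro n a m A y hR hy
  have hmn : m < n := hR.lt
  have h0 : ((F1 a m).card : ℤ) = ∑ j : Fin n, (if j.val < m then (j.val : ℤ) *
      (∑ k : Fin n, if (j < k ∧ a j = a k) then (1 : ℤ) else 0) else 0) := by
    unfold F1
    rw [Finset.card_filter]
    push_cast
    rw [Fintype.sum_prod_type]
    simp only [Fintype.sum_prod_type]
    rw [Finset.sum_comm]
    refine Finset.sum_congr rfl (fun j _ => ?_)
    by_cases hj : j.val < m
    · rw [if_pos hj]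
      have hi : (j.val : ℤ) = ∑ i : Fin n, (if i < j then (1 : ℤ) else 0) := by
        have e : ∀ i : Fin n, (if i < j then (1 : ℤ) else 0) =
            (fun t : ℕ => if t < j.val then (1 : ℤ) else 0) i.val := by
          intro i
          simp only [Fin.lt_def]
        rw [Finset.sum_congr rfl (fun i _ => e i),
          Fin.sum_univ_eq_sum_range (fun t : ℕ => if t < j.val then (1 : ℤ) else 0) n,
          ← Finset.sum_filter]
        have h2 : (range n).filter (fun t => t < j.val) = range j.val := by
          ext t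
          have := j.isLt
          simp only [mem_filter, mem_range]
          omega
        rw [h2]
        simp
      rw [hi, Finset.sum_mul]
      refine Finset.sum_congr rfl (fun i _ => ?_)
      rw [Finset.mul_sum]
      refine Finset.sum_congr rfl (fun k _ => ?_)
      by_cases h1 : i < j <;> by_cases h2 : j < k <;> by_cases h3 : a j = a k <;>
        simp [h1, h2, h3, hj]
    · rw [if_neg hj]
      refine Finset.sum_eq_zero (fun i _ => Finset.sum_eq_zero (fun k _ => ?_))
      rw [if_neg]
      rintro ⟨_, _, h, _⟩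
      exact hj h
  rw [h0, Finset.mul_sum]
  have h5 : ∀ j : Fin n, 2 * (if j.val < m then (j.val : ℤ) *
      (∑ k : Fin n, if (j < k ∧ a j = a k) then (1 : ℤ) else 0) else 0) =
      (fun t : ℕ => if t < m then (t : ℤ) * (((m : ℤ) - 1 - t) + ((n : ℤ) - m) +
        y t * (((n : ℤ) - m) + ∑ k ∈ Ico (t + 1) m, y k)) else 0) j.val := by
    intro j
    simp only
    by_cases hj : j.val < m
    · rw [if_pos hj, if_pos hj, ← cnt_inner a m A y hR hy j hj]
      ring
    · rw [if_neg hj, if_neg hj]
      ring
  rw [Finset.sum_congr rfl (fun j _ => h5 j),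
    Fin.sum_univ_eq_sum_range (fun t : ℕ => if t < m then (t : ℤ) * (((m : ℤ) - 1 - t) +
      ((n : ℤ) - m) + y t * (((n : ℤ) - m) + ∑ k ∈ Ico (t + 1) m, y k)) else 0) n,
    ← Finset.sum_filter]
  have h6 : (range n).filter (fun t => t < m) = range m := by
    ext t
    simp only [mem_filter, mem_range]
    omega
  rw [h6]

end Pool.Agent.R23.TT
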