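import Pool.Agent.R23.TT.Stm

set_option autoImplicit false

/-! TT-F1: forced triples. -/

namespace Pool.Agent.R23.TT

open Finset

namespace F1aux

lemma four {n : ℕ} (i j k l : Fin n) (hij : i < j) (hjk : j < k) (hkl : k < l)
    (t : Finset (Fin n)) (ht : t ⊆ {i, j, k, l}) (h3 : t.card = 3) :
    t = {i, j, k} ∨ t = {i, j, l} ∨ t = {i, k, l} ∨ t = {j, k, l} := by
  have hik := hij.trans hjk
  have hjl := hjk.trans hkl
  have hil := hik.trans hkl
  have hQ : ({i, j, k, l} : Finset (Fin n)).card = 4 := by
    rw [card_insert_of_notMem, card_insert_of_notMem, card_insert_of_notMem, card_singleton]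
    · simp [hkl.ne]
    · simp [hjk.ne, hjl.ne]
    · simp [hij.ne, hik.ne, hil.ne]
  have hone : (({i, j, k, l} : Finset (Fin n)) \ t).card = 1 := by
    rw [card_sdiff_of_subset ht, hQ, h3]
  obtain ⟨x, hx⟩ := card_eq_one.1 hone
  have hxm : x ∈ ({i, j, k, l} : Finset (Fin n)) \ t := by rw [hx]; simp
  have hte : t = ({i, j, k, l} : Finset (Fin n)).erase x := by
    rw [Finset.erase_eq, ← hx, Finset.sdiff_sdiff_eq_self ht]
  have hxQ := (mem_sdiff.1 hxm).1
  simp only [mem_insert, mem_singleton] at hxQ
  rcases hxQ with rfl | rfl | rfl | rfl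
  · right; right; right
    rw [hte]
    ext y
    simp only [mem_erase, mem_insert, mem_singleton]
    constructor
    · rintro ⟨h1, h2⟩
      exact h2.resolve_left h1
    · rintro h
      refine ⟨?_, Or.inr h⟩
      rcases h with rfl | rfl | rfl
      · exact hij.ne'
      · exact hik.ne'
      · exact hil.ne'
  · right; right; left
    rw [hte]
    ext y
    simp only [mem_erase, mem_insert, mem_singleton]
    constructor
    · rintro ⟨h1, h2 | h2 | h2⟩
      · exact Or.inl h2
      · exact absurd h2 h1
      · exact Or.inr h2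
    · rintro (rfl | h)
      · exact ⟨hij.ne, Or.inl rfl⟩
      · refine ⟨?_, Or.inr (Or.inr h)⟩
        rcases h with rfl | rfl
        · exact hjk.ne'
        · exact hjl.ne'
  · right; left
    rw [hte]
    ext y
    simp only [mem_erase, mem_insert, mem_singleton]
    constructor
    · rintro ⟨h1, h2 | h2 | h2 | h2⟩
      · exact Or.inl h2
      · exact Or.inr (Or.inl h2)
      · exact absurd h2 h1
      · exact Or.inr (Or.inr h2)
    · rintro (rfl | rfl | rfl)
      · exact ⟨hik.ne, Or.inl rfl⟩
      · exact ⟨hjk.ne, Or.inr (Or.inl rfl)⟩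
      · exact ⟨hkl.ne', Or.inr (Or.inr (Or.inr rfl))⟩
  · left
    rw [hte]
    ext y
    simp only [mem_erase, mem_insert, mem_singleton]
    constructor
    · rintro ⟨h1, h2 | h2 | h2 | h2⟩
      · exact Or.inl h2
      · exact Or.inr (Or.inl h2)
      · exact Or.inr (Or.inr h2)
      · exact absurd h2 h1
    · rintro (rfl | rfl | rfl)
      · exact ⟨hil.ne, Or.inl rfl⟩
      · exact ⟨hjl.ne, Or.inr (Or.inl rfl)⟩
      · exact ⟨hkl.ne, Or.inr (Or.inr (Or.inl rfl))⟩

lemma cov4 {n : ℕ} {T : Finset (Finset (Fin n))} {a : Fin n → Bool} (hO : Ord T a)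
    (i j k l : Fin n) (hij : i < j) (hjk : j < k) (hkl : k < l) :
    ({i, j, k} : Finset (Fin n)) ∈ T ∨ ({i, j, l} : Finset (Fin n)) ∈ T ∨
      ({i, k, l} : Finset (Fin n)) ∈ T ∨ ({j, k, l} : Finset (Fin n)) ∈ T := by
  have hik := hij.trans hjk
  have hjl := hjk.trans hkl
  have hil := hik.trans hkl
  have hQ : ({i, j, k, l} : Finset (Fin n)).card = 4 := by
    rw [card_insert_of_notMem, card_insert_of_notMem, card_insert_of_notMem, card_singleton]
    · simp [hkl.ne]
    · simp [hjk.ne, hjl.ne]
    · simp [hij.ne, hik.ne, hil.ne]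
  obtain ⟨t, ht, htQ⟩ := hO.cov _ hQ
  rcases four i j k l hij hjk hkl t htQ (hO.three t ht) with h | h | h | h
  · exact Or.inl (h ▸ ht)
  · exact Or.inr (Or.inl (h ▸ ht))
  · exact Or.inr (Or.inr (Or.inl (h ▸ ht)))
  · exact Or.inr (Or.inr (Or.inr (h ▸ ht)))

/-- a fourth vertex after `k` -/
lemma after {n : ℕ} {T : Finset (Finset (Fin n))} {a : Fin n → Bool} (hO : Ord T a)
    (i j k l : Fin n) (hij : i < j) (hjk : j < k) (hkl : k < l) (h1 : a j = a k)
    (h2 : a l ≠ a k) : ({i, j, k} : Finset (Fin n)) ∈ T := by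
  rcases cov4 hO i j k l hij hjk hkl with h | h | h | h
  · exact h
  · exact absurd ((hO.mono i j l hij (hjk.trans hkl) h).symm.trans h1) h2
  · exact absurd (hO.mono i k l (hij.trans hjk) hkl h).symm h2
  · exact absurd (hO.mono j k l hjk hkl h).symm h2

/-- a fourth vertex between `j` and `k` -/
lemma between {n : ℕ} {T : Finset (Finset (Fin n))} {a : Fin n → Bool} (hO : Ord T a)
    (i j l k : Fin n) (hij : i < j) (hjl : j < l) (hlk : l < k) (h1 : a j = a k)
    (h2 : a l ≠ a k) : ({i, j, k} : Finset (Fin n)) ∈ T := by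
  rcases cov4 hO i j l k hij hjl hlk with h | h | h | h
  · exact absurd ((hO.mono i j l hij hjl h).symm.trans h1) h2
  · exact h
  · exact absurd (hO.mono i l k (hij.trans hjl) hlk h) h2
  · exact absurd (hO.mono j l k hjl hlk h) h2

end F1aux

theorem t_F1 : S_F1 := by
  intro n T a m A hO hR p hp
  obtain ⟨i, j, k⟩ := p
  obtain ⟨-, hij, hjk, hjm, hajk⟩ := mem_filter.1 hp
  simp only at hij hjk hjm hajk
  have hmem : ({i, j, k} : Finset (Fin n)) ∈ T := by
    by_cases hA : a j = A
    · rcases hR.last with h0 | ⟨l, hl, hla⟩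
      · omega
      · have hjl : j < l := by
          have h1 : j.val ≤ l.val := by omega
          rcases lt_or_eq_of_le h1 with h2 | h2
          · exact h2
          · exact absurd ((congrArg a (Fin.ext h2)).symm.trans hA) hla
        have hak : a k = A := hajk.symm.trans hA
        rcases Nat.lt_or_ge k.val m with hk | hk
        · have hkl : k < l := by
            have h1 : k.val ≤ l.val := by omega
            rcases lt_or_eq_of_le h1 with h2 | h2
            · exact h2
            · exact absurd ((congrArg a (Fin.ext h2)).symm.trans hak) hla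
          exact F1aux.after hO i j k l hij hjk hkl hajk (by rw [hak]; exact hla)
        · have hlk : l < k := by
            show l.val < k.val
            omega
          exact F1aux.between hO i j l k hij hjl hlk hajk (by rw [hak]; exact hla)
    · have hkm : k.val < m := by
        by_contra hk
        exact hA (hajk.trans (hR.tail k (by omega)))
      have hl : a ⟨m, hR.lt⟩ = A := hR.tail ⟨m, hR.lt⟩ le_rfl
      refine F1aux.after hO i j k ⟨m, hR.lt⟩ hij hjk hkm hajk ?_
      rw [hl, ← hajk]
      exact fun h => hA h.symm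
  refine mem_filter.2 ⟨mem_filter.2 ⟨mem_univ _, hij, hjk, hmem⟩, hjm⟩

end Pool.Agent.R23.TT

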