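import Pool.Agent.R23.TT.Stm

set_option autoImplicit false

namespace Pool.Agent.R23.TT.FIN1h

theorem box (t u w : ℝ) (ht : 0 ≤ t) (hu : 0 ≤ u) (hw : 0 ≤ w) (h1 : w ≤ 0.455 * t) (h2 : u ≤ 1.6 * t) :
    0 ≤ t * (2 * w ^ 2 - 2 * u * w + 7 / 8 * u ^ 2) + w ^ 3 / 9 - 5 / 3 * w ^ 2 * u
      + 23 / 24 * w * u ^ 2 - 19 / 72 * u ^ 3 := by
  rcases le_total u (0.5 * t) with h | h
  · nlinarith [mul_nonneg (mul_nonneg hw hw) (sub_nonneg.2 h), mul_nonneg (mul_nonneg hu hu) (sub_nonneg.2 h), mul_nonneg ht (sq_nonneg (w - 0.7 * u)), mul_nonneg ht (sq_nonneg (w - 0.6 * u)), mul_nonneg hw (mul_nonneg hu (sub_nonneg.2 h1)), pow_nonneg hw 3, mul_nonneg hw (sq_nonneg u), mul_nonneg (mul_nonneg hw hu) (sub_nonneg.2 h), mul_nonneg hu (sq_nonneg (w - u)), mul_nonneg hu (sq_nonneg (w - 0.6 * u))]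
  · rcases le_total u (0.8 * t) with h' | h'
    · nlinarith [mul_nonneg (mul_nonneg hw hw) (sub_nonneg.2 h'), mul_nonneg (mul_nonneg hu hu) (sub_nonneg.2 h'), mul_nonneg ht (sq_nonneg (w - 0.7 * u)), mul_nonneg ht (sq_nonneg (w - 0.6 * u)), mul_nonneg hw (mul_nonneg hu (sub_nonneg.2 h1)), pow_nonneg hw 3, mul_nonneg hw (sq_nonneg u), mul_nonneg (mul_nonneg hw hu) (sub_nonneg.2 h), mul_nonneg (mul_nonneg hu hu) (sub_nonneg.2 h), mul_nonneg hu (sq_nonneg (w - 0.6 * u))]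
    · nlinarith [mul_nonneg (mul_nonneg hw hw) (sub_nonneg.2 h2), mul_nonneg (mul_nonneg hu hu) (sub_nonneg.2 h2), mul_nonneg ht (sq_nonneg (w - 0.7 * u)), mul_nonneg ht (sq_nonneg (w - 0.5 * u)), mul_nonneg hw (mul_nonneg hu (sub_nonneg.2 h1)), pow_nonneg hw 3, mul_nonneg hw (sq_nonneg u), mul_nonneg (mul_nonneg hw hu) (sub_nonneg.2 h'), mul_nonneg (mul_nonneg hu hu) (sub_nonneg.2 h'), mul_nonneg hu (sq_nonneg (w - 0.6 * u)), mul_nonneg (mul_nonneg hu hu) (sub_nonneg.2 h1), mul_nonneg (mul_nonneg hw hu) (sub_nonneg.2 h2)]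

theorem t_FIN1 : S_FIN1 := by
  intro a b r ha hb hbr har hC
  obtain ⟨t, ht⟩ : ∃ t, t = (a + b + r) / 3 := ⟨_, rfl⟩
  obtain ⟨u, hu⟩ : ∃ u, u = r - a := ⟨_, rfl⟩
  obtain ⟨w, hw⟩ : ∃ w, w = r - b := ⟨_, rfl⟩
  have hr : r = t + (w + u) / 3 := by rw [ht, hu, hw]; ring
  have ha' : a = t + (w + u) / 3 - u := by rw [← hr, hu]; ring
  have hb' : b = t + (w + u) / 3 - w := by rw [← hr, hw]; ring
  have ht0 : 0 ≤ t := by rw [ht]; linarith
  have hu0 : 0 ≤ u := by linarith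
  have hw0 : 0 ≤ w := by linarith
  have hut : u / 3 ≤ t := by linarith
  have hC' : 0 ≤ 0.84 * t ^ 2 - 2 * w * t + u * (2 * w - u) / 3 := by
    rw [ha', hb', hr] at hC
    nlinarith [hC]
  have h2 : u ≤ 1.6 * t := by
    by_contra hcon
    push Not at hcon
    nlinarith [mul_nonneg hw0 (sub_nonneg.2 hut)]
  have h1 : w ≤ 0.455 * t := by
    by_contra hcon
    push Not at hcon
    have h3 := mul_nonneg (sub_nonneg.2 hcon.le) (sub_nonneg.2 hut)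
    rcases ht0.lt_or_eq with htp | hte
    · nlinarith [sq_nonneg (u - 0.455 * t), mul_pos htp htp]
    · have : a + b + r = 0 := by linarith
      have h4 : r = 0 := by linarith
      have h5 : b = 0 := by linarith
      rw [hw, h4, h5, ← hte] at hcon
      norm_num at hcon
  have key := box t u w ht0 hu0 hw0 h1 h2
  rw [ha', hb', hr]
  nlinarith [key]

end Pool.Agent.R23.TT.FIN1h
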