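import Pool.Agent.R23.TT.Stm

namespace Pool.Agent.R23.TT

theorem t_FIN3 : S_FIN3 := by
  intro a b r ha hr h1 h2 h3 _
  obtain ⟨u, hu⟩ : ∃ u, u = b - r := ⟨_, rfl⟩
  obtain ⟨v, hv⟩ : ∃ v, v = r - a := ⟨_, rfl⟩
  obtain ⟨w, hw⟩ : ∃ w, w = r + a - b := ⟨_, rfl⟩
  have hu0 : 0 ≤ u := by linarith
  have hv0 : 0 ≤ v := by linarith
  have hw0 : 0 ≤ w := by linarith
  have er : r = w + u + v := by linarith
  have ea : a = w + u := by linarith
  have eb : b = w + 2 * u + v := by linarith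
  have key : 0 ≤ 144 * (w * u ^ 2) + 144 * (w * u * v) + 63 * (w * v ^ 2) + 112 * u ^ 3 +
      168 * (u ^ 2 * v) + 111 * (u * v ^ 2) + 23 * v ^ 3 := by positivity
  subst er ea eb
  nlinarith [key]

end Pool.Agent.R23.TT
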