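import Pool.Agent.R23.TT.Stm
set_option autoImplicit false
namespace Pool.Agent.R23.TT

theorem t_FIN3x : S_FIN3 := by
  intro a b r ha hr h1 h2 h3 _
  obtain ⟨u, hu⟩ : ∃ u, u = b - r := ⟨_, rfl⟩
  obtain ⟨v, hv⟩ : ∃ v, v = r - a := ⟨_, rfl⟩
  obtain ⟨w, hw⟩ : ∃ w, w = r - u - v := ⟨_, rfl⟩
  have hu0 : 0 ≤ u := by linarith
  have hv0 : 0 ≤ v := by linarith
  have hw0 : 0 ≤ w := by linarith
  have er : r = u + v + w := by linarith
  have eb : b = 2 * u + v + w := by linarith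
  have ea : a = u + w := by linarith
  subst ea eb er
  have key : 0 ≤ w * (2 * u ^ 2 + 2 * u * v + 7 / 8 * v ^ 2) + 14 / 9 * u ^ 3 + 7 / 3 * u ^ 2 * v +
      37 / 24 * u * v ^ 2 + 23 / 72 * v ^ 3 := by positivity
  nlinarith [key]

end Pool.Agent.R23.TT
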