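import Pool.Agent.R23.TT.Stm

set_option autoImplicit false

namespace Pool.Agent.R23.TT

theorem t_FIN4 : S_FIN4 := by
  intro a b r ha hr hrb hba hra
  obtain ⟨u, rfl⟩ : ∃ u, b = r + u := ⟨b - r, by ring⟩
  obtain ⟨w, rfl⟩ : ∃ w, a = r + w := ⟨a - r, by ring⟩
  have hu : 0 ≤ u := by linarith
  have hw : 0 ≤ w := by linarith
  have hq : 0 ≤ u ^ 2 - u * w + w ^ 2 := by nlinarith [sq_nonneg (u - w), mul_nonneg hu hw]
  have key : 0 ≤ 2 * r * (u ^ 2 - u * w + w ^ 2) +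
      (-4 / 9 * u ^ 3 + 5 / 3 * u ^ 2 * w - 4 / 3 * u * w ^ 2 + 5 / 9 * w ^ 3) := by
    rcases le_total u w with h | h
    · obtain ⟨s, rfl⟩ : ∃ s, w = u + s := ⟨w - u, by ring⟩
      have hs : 0 ≤ s := by linarith
      have e : -4 / 9 * u ^ 3 + 5 / 3 * u ^ 2 * (u + s) - 4 / 3 * u * (u + s) ^ 2 +
          5 / 9 * (u + s) ^ 3 = 4 / 9 * u ^ 3 + 2 / 3 * u ^ 2 * s + 1 / 3 * u * s ^ 2 +
          5 / 9 * s ^ 3 := by ring
      rw [e]
      positivity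
    · obtain ⟨s, rfl⟩ : ∃ s, u = w + s := ⟨u - w, by ring⟩
      have hs : 0 ≤ s := by linarith
      have hrs : s ≤ r := by linarith
      have h1 : 2 * s * ((w + s) ^ 2 - (w + s) * w + w ^ 2) ≤
          2 * r * ((w + s) ^ 2 - (w + s) * w + w ^ 2) :=
        mul_le_mul_of_nonneg_right (by linarith) hq
      have e : 2 * s * ((w + s) ^ 2 - (w + s) * w + w ^ 2) +
          (-4 / 9 * (w + s) ^ 3 + 5 / 3 * (w + s) ^ 2 * w - 4 / 3 * (w + s) * w ^ 2 +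
            5 / 9 * w ^ 3) = 4 / 9 * w ^ 3 + 8 / 3 * w ^ 2 * s + 7 / 3 * w * s ^ 2 +
          14 / 9 * s ^ 3 := by ring
      have h2 : 0 ≤ 4 / 9 * w ^ 3 + 8 / 3 * w ^ 2 * s + 7 / 3 * w * s ^ 2 +
          14 / 9 * s ^ 3 := by positivity
      linarith
  nlinarith [key]

end Pool.Agent.R23.TT
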