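import Pool.Agent.R23.TT.Stm

set_option autoImplicit false

namespace Pool.Agent.R23.TT

theorem t_FIN5 : S_FIN5 := by
  intro a b r ha hr hb har
  obtain ⟨v, hv, rfl⟩ : ∃ v, 0 ≤ v ∧ r = a + v := ⟨r - a, by linarith, by ring⟩
  obtain ⟨u, hu, rfl⟩ : ∃ u, 0 ≤ u ∧ b = a + v + a + u := ⟨b - (a + v + a), by linarith, by ring⟩
  have h : 0 ≤ 23 / 72 * v ^ 3 + 2 / 3 * (u * v ^ 2) + 1 / 3 * (u ^ 2 * v) + 5 / 9 * u ^ 3 +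
      37 / 24 * (a * v ^ 2) + 8 / 3 * (a * u * v) + 2 / 3 * (a * u ^ 2) + 7 / 3 * (a ^ 2 * v) +
      8 / 3 * (a ^ 2 * u) + 14 / 9 * a ^ 3 := by positivity
  nlinarith [h]

end Pool.Agent.R23.TT
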