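import Pool.Agent.R23.TT.Stm

set_option autoImplicit false

namespace Pool.Agent.R23.TT

theorem t_FIN6 : S_FIN6 := by
  intro a b r ha hr hb hra
  obtain ⟨v, hv, rfl⟩ : ∃ v, 0 ≤ v ∧ a = r + v := ⟨a - r, by linarith, by ring⟩
  obtain ⟨u, hu, rfl⟩ : ∃ u, 0 ≤ u ∧ b = r + (r + v) + u := ⟨b - (r + (r + v)), by linarith, by ring⟩
  rw [← sub_nonneg]
  ring_nf
  positivity

end Pool.Agent.R23.TT
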