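import Pool.Agent.R23.TT.Stm

set_option autoImplicit false

/-! TT-ORD (helper861, subtask 6441): the colouring of pairs is given by the type of the later
vertex. -/

namespace Pool.Agent.R23.TT

open Finset

namespace ORD

variable {n : ℕ}

/-- no alternating four cycle -/
theorem no_alt (c : Fin n → Fin n → Bool)
    (h4 : ∀ Q : Finset (Fin n), Q.card = 4 → ∃ t : Finset (Fin n), t ⊆ Q ∧ t.card = 3 ∧ Mono c t)
    (v x w u : Fin n) (hvx : v ≠ x) (hwu : w ≠ u) (hvu : v ≠ u) (hwx : w ≠ x) (hvw : v ≠ w)
    (hxu : x ≠ u) (c1 : c v x = true) (c2 : c w u = true) (c3 : c v u = false)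
    (c4 : c w x = false) : False := by
  have hQ : ({v, x, w, u} : Finset (Fin n)).card = 4 := by
    rw [card_insert_of_notMem, card_insert_of_notMem, card_insert_of_notMem, card_singleton]
    · simpa using hwu
    · simp only [mem_insert, mem_singleton, not_or]
      exact ⟨hwx.symm, hxu⟩
    · simp only [mem_insert, mem_singleton, not_or]
      exact ⟨hvx, hvw, hvu⟩
  obtain ⟨t, htQ, ht3, hm⟩ := h4 _ hQ
  have hd : (({v, x, w, u} : Finset (Fin n)) \ t).card = 1 := by
    rw [card_sdiff_of_subset htQ, hQ, ht3]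
  obtain ⟨z, hz⟩ := card_eq_one.1 hd
  have hin : ∀ y ∈ ({v, x, w, u} : Finset (Fin n)), y ≠ z → y ∈ t := by
    intro y hy hyz
    by_contra hyt
    have : y ∈ ({v, x, w, u} : Finset (Fin n)) \ t := mem_sdiff.2 ⟨hy, hyt⟩
    rw [hz, mem_singleton] at this
    exact hyz this
  have hzQ : z ∈ ({v, x, w, u} : Finset (Fin n)) := by
    have : z ∈ ({v, x, w, u} : Finset (Fin n)) \ t := by rw [hz]; exact mem_singleton_self z
    exact (mem_sdiff.1 this).1
  have mv : v ∈ ({v, x, w, u} : Finset (Fin n)) := by simp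
  have mx : x ∈ ({v, x, w, u} : Finset (Fin n)) := by simp
  have mw : w ∈ ({v, x, w, u} : Finset (Fin n)) := by simp
  have mu : u ∈ ({v, x, w, u} : Finset (Fin n)) := by simp
  simp only [mem_insert, mem_singleton] at hzQ
  rcases hzQ with rfl | rfl | rfl | rfl
  · have := hm w (hin w mw hvw.symm) u (hin u mu hvu.symm) w (hin w mw hvw.symm)
      x (hin x mx hvx.symm) hwu hwx
    rw [c2, c4] at this
    exact absurd this (by simp)
  · have := hm w (hin w mw hwx) u (hin u mu hxu.symm) v (hin v mv hvx) u (hin u mu hxu.symm)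
      hwu hvu
    rw [c2, c3] at this
    exact absurd this (by simp)
  · have := hm v (hin v mv hvw) x (hin x mx hwx.symm) v (hin v mv hvw) u (hin u mu hwu.symm)
      hvx hvu
    rw [c1, c3] at this
    exact absurd this (by simp)
  · have := hm v (hin v mv hvu) x (hin x mx hxu) w (hin w mw hwu) x (hin x mx hxu) hvx hwx
    rw [c1, c4] at this
    exact absurd this (by simp)

theorem key (c : Fin n → Fin n → Bool) (hs : ∀ x y, c x y = c y x)
    (h4 : ∀ Q : Finset (Fin n), Q.card = 4 → ∃ t : Finset (Fin n), t ⊆ Q ∧ t.card = 3 ∧ Mono c t)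
    (S : Finset (Fin n)) (hS : S.Nonempty) :
    ∃ v ∈ S, ∃ b : Bool, ∀ x ∈ S, x ≠ v → c v x = b := by
  classical
  by_contra hcon
  push Not at hcon
  set N : Fin n → Finset (Fin n) := fun v => S.filter fun x => x ≠ v ∧ c v x = true with hN
  obtain ⟨v, hv, hmax⟩ := S.exists_max_image (fun v => (N v).card) hS
  obtain ⟨u, hu, huv, hcu⟩ := hcon v hv true
  have hcvu : c v u = false := by simpa using hcu
  obtain ⟨w, hw, hwu, hcw⟩ := hcon u hu false
  have hcuw : c u w = true := by simpa using hcw
  have hvw : v ≠ w := by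
    rintro rfl
    rw [hs u v, hcvu] at hcuw
    exact absurd hcuw (by simp)
  have hle : (N w).card ≤ (N v).card := hmax w hw
  have hmem : ∀ a b, b ∈ N a ↔ b ∈ S ∧ b ≠ a ∧ c a b = true := by
    intro a b
    simp only [hN, mem_filter]
  have hcards : ((N w).erase v).card ≤ ((N v).erase w).card := by
    by_cases hr : c v w = true
    · have m1 : w ∈ N v := (hmem v w).2 ⟨hw, hvw.symm, hr⟩
      have m2 : v ∈ N w := (hmem w v).2 ⟨hv, hvw, by rw [hs w v]; exact hr⟩
      rw [card_erase_of_mem m1, card_erase_of_mem m2]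
      omega
    · have m1 : w ∉ N v := fun h => hr ((hmem v w).1 h).2.2
      have m2 : v ∉ N w := fun h => hr (by rw [hs v w]; exact ((hmem w v).1 h).2.2)
      rw [erase_eq_of_notMem m1, erase_eq_of_notMem m2]
      exact hle
  have huB : u ∈ (N w).erase v := by
    rw [mem_erase, hmem]
    exact ⟨huv, hu, hwu.symm, by rw [hs w u]; exact hcuw⟩
  have huA : u ∉ (N v).erase w := by
    rw [mem_erase, hmem]
    rintro ⟨-, -, -, h⟩
    rw [hcvu] at h
    exact absurd h (by simp)
  have hnot : ¬ (N v).erase w ⊆ (N w).erase v := by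
    intro hsub
    have heq := eq_of_subset_of_card_le hsub hcards
    rw [← heq] at huB
    exact huA huB
  obtain ⟨x, hxA, hxB⟩ := not_subset.1 hnot
  rw [mem_erase, hmem] at hxA
  rw [mem_erase, hmem] at hxB
  obtain ⟨hxw, hxS, hxv, hcvx⟩ := hxA
  have hcwx : c w x = false := by
    by_contra h
    have h' : c w x = true := by simpa using h
    exact hxB ⟨hxv, hxS, hxw, h'⟩
  have hxu : x ≠ u := by
    rintro rfl
    rw [hcvu] at hcvx
    exact absurd hcvx (by simp)
  exact no_alt c h4 v x w u hxv.symm hwu huv.symm hxw.symm hvw hxu hcvx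
    (by rw [hs w u]; exact hcuw) hcvu hcwx

theorem enum (hn : 0 < n) (c : Fin n → Fin n → Bool) (hs : ∀ x y, c x y = c y x)
    (h4 : ∀ Q : Finset (Fin n), Q.card = 4 → ∃ t : Finset (Fin n), t ⊆ Q ∧ t.card = 3 ∧ Mono c t) :
    ∀ (k : ℕ) (S : Finset (Fin n)), S.card = k → ∃ (g : ℕ → Fin n) (a : ℕ → Bool),
      (∀ i < k, g i ∈ S) ∧ (∀ i < k, ∀ j < k, g i = g j → i = j) ∧
      ∀ i j, i < j → j < k → c (g i) (g j) = a j := by
  classical
  intro k
  induction k with
  | zero =>
    intro S _
    exact ⟨fun _ => ⟨0, hn⟩, fun _ => true, fun i hi => absurd hi (Nat.not_lt_zero _),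
      fun i hi => absurd hi (Nat.not_lt_zero _), fun i j _ hj => absurd hj (Nat.not_lt_zero _)⟩
  | succ k ih =>
    intro S hS
    have hne : S.Nonempty := by
      rw [← card_pos, hS]
      exact Nat.succ_pos k
    obtain ⟨v, hv, b, hb⟩ := key c hs h4 S hne
    obtain ⟨g, a, hg1, hg2, hg3⟩ := ih (S.erase v) (by rw [card_erase_of_mem hv, hS]; rfl)
    have hgv : ∀ i < k, g i ≠ v := fun i hi => (mem_erase.1 (hg1 i hi)).1
    refine ⟨fun j => if j = k then v else g j, fun j => if j = k then b else a j, ?_, ?_, ?_⟩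
    · intro i hi
      by_cases h : i = k
      · simp only [h, if_true]; exact hv
      · simp only [h, if_false]
        exact (mem_erase.1 (hg1 i (by omega))).2
    · intro i hi j hj hij
      by_cases h1 : i = k
      · by_cases h2 : j = k
        · rw [h1, h2]
        · simp only [h1, h2, if_true, if_false] at hij
          exact absurd hij.symm (hgv j (by omega))
      · by_cases h2 : j = k
        · simp only [h1, h2, if_true, if_false] at hij
          exact absurd hij (hgv i (by omega))
        · simp only [h1, h2, if_false] at hij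
          exact hg2 i (by omega) j (by omega) hij
    · intro i j hij hj
      have h1 : i ≠ k := by omega
      by_cases h2 : j = k
      · simp only [h1, h2, if_true, if_false]
        have hi : i < k := by omega
        rw [hs]
        exact hb (g i) (mem_erase.1 (hg1 i hi)).2 (hgv i hi)
      · simp only [h1, h2, if_false]
        exact hg3 i j hij (by omega)

end ORD

theorem t_ORD : S_ORD := by
  intro n c hs h4
  rcases Nat.eq_zero_or_pos n with h0 | h0
  · subst h0
    exact ⟨Equiv.refl _, fun _ => true, fun i => i.elim0⟩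
  · obtain ⟨g, a, -, hg2, hg3⟩ := ORD.enum h0 c hs h4 n univ (by rw [card_univ, Fintype.card_fin])
    have hinj : Function.Injective (fun i : Fin n => g i) := fun i j hij =>
      Fin.ext (hg2 i i.2 j j.2 hij)
    refine ⟨Equiv.ofBijective _ (Finite.injective_iff_bijective.1 hinj), fun j => a j, ?_⟩
    intro i j hij
    exact hg3 i j hij j.2

end Pool.Agent.R23.TT
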