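import Pool.Agent.R23.TT.Asm

set_option autoImplicit false

namespace Pool.Agent.R23.TT

open Finset

theorem outer (hORD : S_ORD) (hTRI : S_TRI) (hF1 : S_F1) (hX2 : S_X2) (hX3 : S_X3)
    (hCNT : S_CNT) (hSEQ : S_SEQ) (hBLUE : S_BLUE) (hRUN : S_RUN)
    (h1 : S_FIN1) (h2 : S_FIN2) (h3 : S_FIN3) (h4 : S_FIN4) (h5 : S_FIN5) (h6 : S_FIN6)
    (n : ℕ) (T : Finset (Finset (Fin n))) (c : Fin n → Fin n → Bool)
    (hcard : ∀ t ∈ T, t.card = 3)
    (hcov : ∀ Q : Finset (Fin n), Q.card = 4 → ∃ t ∈ T, t ⊆ Q)
    (hsymm : ∀ x y, c x y = c y x)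
    (hmono : ∀ t ∈ T, ∀ x ∈ t, ∀ y ∈ t, ∀ z ∈ t, ∀ w ∈ t, x ≠ y → z ≠ w → c x y = c z w)
    (hcol : ∀ b : Bool, (1 / 4 : ℝ) * ((n : ℝ) * ((n : ℝ) - 1)) ≤
      (((univ : Finset (Fin n × Fin n)).filter
        (fun p => p.1 ≠ p.2 ∧ c p.1 p.2 = b)).card : ℝ)) :
    2 / 27 * (n : ℝ) ^ 3 - 100 * (n : ℝ) ^ 2 ≤ (T.card : ℝ) := by
  by_cases hn : 25 ≤ n
  · obtain ⟨σ, a, hσ⟩ := hORD n c hsymm (by
      intro Q hQ
      obtain ⟨t, ht, htQ⟩ := hcov Q hQ
      exact ⟨t, htQ, hcard t ht, fun x hx y hy z hz w hw hxy hzw =>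
        hmono t ht x hx y hy z hz w hw hxy hzw⟩)
    have hinj : Function.Injective (fun t : Finset (Fin n) => t.image σ.symm) :=
      Finset.image_injective σ.symm.injective
    have hO : Ord (T.image (fun t => t.image σ.symm)) a := by
      refine ⟨?_, ?_, ?_⟩
      · intro t ht
        obtain ⟨s, hs, rfl⟩ := mem_image.1 ht
        rw [card_image_of_injective _ σ.symm.injective]
        exact hcard s hs
      · intro Q hQ
        obtain ⟨t, ht, htQ⟩ := hcov (Q.image σ) (by
          rw [card_image_of_injective _ σ.injective]; exact hQ)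
        refine ⟨t.image σ.symm, mem_image_of_mem _ ht, ?_⟩
        intro x hx
        obtain ⟨y, hy, rfl⟩ := mem_image.1 hx
        obtain ⟨z, hz, hzy⟩ := mem_image.1 (htQ hy)
        rw [← hzy]
        simpa using hz
      · intro i j k hij hjk hT
        obtain ⟨t, ht, hte⟩ := mem_image.1 hT
        have hm : ∀ x : Fin n, x ∈ ({i, j, k} : Finset (Fin n)) → σ x ∈ t := by
          intro x hx
          rw [← hte] at hx
          obtain ⟨y, hy, hyx⟩ := mem_image.1 hx
          rw [← hyx]
          simpa using hy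
        have hi := hm i (by simp)
        have hj := hm j (by simp)
        have hk := hm k (by simp)
        have hne : ∀ x z : Fin n, x < z → σ x ≠ σ z := fun x z h h' =>
          (ne_of_lt h) (σ.injective h')
        have := hmono t ht (σ i) hi (σ j) hj (σ i) hi (σ k) hk (hne i j hij)
          (hne i k (hij.trans hjk))
        rw [hσ i j hij, hσ i k (hij.trans hjk)] at this
        exact this
    have hres := ordered_bound hTRI hF1 hX2 hX3 hCNT hSEQ hBLUE hRUN h1 h2 h3 h4 h5 h6 n hn
      (T.image (fun t => t.image σ.symm)) a hO (by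
        intro b
        have hb := hcol b
        set L := (univ : Finset (Fin n × Fin n)).filter (fun p => p.1 < p.2 ∧ a p.2 = b) with hL
        have hle : ((univ : Finset (Fin n × Fin n)).filter
            (fun p => p.1 ≠ p.2 ∧ c p.1 p.2 = b)).card ≤ L.card + L.card := by
          have hsub : (univ : Finset (Fin n × Fin n)).filter
              (fun p => p.1 ≠ p.2 ∧ c p.1 p.2 = b) ⊆
              L.image (fun p => (σ p.1, σ p.2)) ∪ L.image (fun p => (σ p.2, σ p.1)) := by
            rintro ⟨x, y⟩ hxy
            simp only [mem_filter, mem_univ, true_and] at hxy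
            obtain ⟨hne, hc⟩ := hxy
            have hne' : σ.symm x ≠ σ.symm y := fun h => hne (σ.symm.injective h)
            rw [mem_union]
            rcases lt_or_gt_of_ne hne' with h | h
            · left
              refine mem_image.2 ⟨(σ.symm x, σ.symm y), ?_, by simp⟩
              simp only [hL, mem_filter, mem_univ, true_and]
              refine ⟨h, ?_⟩
              have := hσ _ _ h
              simp only [Equiv.apply_symm_apply] at this
              rw [← this, hc]
            · right
              refine mem_image.2 ⟨(σ.symm y, σ.symm x), ?_, by simp⟩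
              simp only [hL, mem_filter, mem_univ, true_and]
              refine ⟨h, ?_⟩
              have := hσ _ _ h
              simp only [Equiv.apply_symm_apply] at this
              rw [← this, hsymm, hc]
          refine le_trans (card_le_card hsub) (le_trans (card_union_le _ _) ?_)
          exact Nat.add_le_add card_image_le card_image_le
        have hleR : (((univ : Finset (Fin n × Fin n)).filter
            (fun p => p.1 ≠ p.2 ∧ c p.1 p.2 = b)).card : ℝ) ≤ (L.card : ℝ) + L.card := by
          exact_mod_cast hle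
        linarith)
    rw [card_image_of_injective _ hinj] at hres
    exact hres
  · push Not at hn
    have hnR : (n : ℝ) ≤ 25 := by exact_mod_cast hn.le
    have hn0 : (0 : ℝ) ≤ n := Nat.cast_nonneg _
    have h0 : (0 : ℝ) ≤ (T.card : ℝ) := Nat.cast_nonneg _
    have : 2 / 27 * (n : ℝ) ^ 3 - 100 * (n : ℝ) ^ 2 ≤ 0 := by
      have e : 2 / 27 * (n : ℝ) ^ 3 - 100 * (n : ℝ) ^ 2 = (n : ℝ) ^ 2 * (2 / 27 * n - 100) := by
        ring
      rw [e]
      exact mul_nonpos_of_nonneg_of_nonpos (sq_nonneg _) (by linarith)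
    linarith

end Pool.Agent.R23.TT
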