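import Pool.Agent.R23.TT.Stm

set_option autoImplicit false

namespace Pool.Agent.R23.TT

open Finset

theorem PATH_core (r b a m E S : ℝ) (hb : 0 ≤ b) (ha : 0 ≤ a) (hm : 0 ≤ m)
    (hr : 1 ≤ r ∨ r ≤ 0)
    (ih : |r - 1| ^ 3 + E - 2 * (max (r - 1 - b) 0) ^ 3 - 2 * (max (-(r - 1) - a) 0) ^ 3
      - 20 * (m + |r - 1|) ^ 2 ≤ 3 * S) :
    |r| ^ 3 + E - 2 * (max (r - (b + 1)) 0) ^ 3 - 2 * (max (-r - a) 0) ^ 3
      - 20 * (m + 1 + |r|) ^ 2 ≤ 3 * (S + (r - 1) ^ 2) := by
  have e1 : r - (b + 1) = r - 1 - b := by ring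
  rw [e1]
  rcases hr with h | h
  · rw [abs_of_nonneg (by linarith : 0 ≤ r - 1), max_eq_right (by linarith : -(r - 1) - a ≤ 0)] at ih
    rw [abs_of_nonneg (by linarith : 0 ≤ r), max_eq_right (by linarith : -r - a ≤ 0)]
    nlinarith
  · rw [abs_of_nonpos (by linarith : r - 1 ≤ 0), max_eq_right (by linarith : r - 1 - b ≤ 0)] at ih
    rw [abs_of_nonpos h, max_eq_right (by linarith : r - 1 - b ≤ 0)]
    set u := max (-r - a) 0 with hu
    set v := max (-(r - 1) - a) 0 with hv
    have hu0 : 0 ≤ u := le_max_right _ _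
    have hv0 : 0 ≤ v := le_max_right _ _
    have hus : u ≤ -r := max_le (by linarith) (by linarith)
    have hvu : v ≤ u + 1 := by
      apply max_le
      · have := le_max_left (-r - a) 0
        linarith
      · linarith
    have h3 : v ^ 3 ≤ (u + 1) ^ 3 := pow_le_pow_left₀ hv0 hvu 3
    have h4 : u ^ 2 ≤ (-r) ^ 2 := pow_le_pow_left₀ hu0 hus 2
    nlinarith

theorem t_PATH : S_PATH := by
  intro m
  induction m with
  | zero =>
    intro ρ y _
    simp only [range_zero, sum_empty, filter_empty, card_empty, Nat.cast_zero, sub_zero, add_zero,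
      mul_zero, zero_add]
    rcases le_total 0 (ρ : ℝ) with h | h
    · rw [abs_of_nonneg h, max_eq_left h, max_eq_right (by linarith : -(ρ : ℝ) ≤ 0)]
      nlinarith [sq_nonneg (ρ : ℝ)]
    · rw [abs_of_nonpos h, max_eq_right h, max_eq_left (by linarith : 0 ≤ -(ρ : ℝ))]
      nlinarith [sq_nonneg (ρ : ℝ)]
  | succ m ih =>
    intro ρ y hy
    have ih' := ih (ρ + y m) y hy
    have hsum : ∑ j ∈ range (m + 1), ((ρ + ∑ k ∈ Ico j (m + 1), y k : ℤ) : ℝ) ^ 2
        = ∑ j ∈ range m, ((ρ + y m + ∑ k ∈ Ico j m, y k : ℤ) : ℝ) ^ 2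
          + ((ρ : ℝ) + y m) ^ 2 := by
      rw [sum_range_succ]
      congr 1
      · refine sum_congr rfl fun j hj => ?_
        rw [sum_Ico_succ_top (mem_range.mp hj).le]
        congr 2
        ring
      · rw [sum_Ico_succ_top le_rfl, Ico_self, sum_empty, zero_add]
        push_cast
        ring
    have hend : (ρ + ∑ k ∈ range (m + 1), y k : ℤ) = ρ + y m + ∑ k ∈ range m, y k := by
      rw [sum_range_succ]; ring
    rw [hsum, hend]
    have hm : (0:ℝ) ≤ m := Nat.cast_nonneg m
    have hmc : ((m + 1 : ℕ) : ℝ) = m + 1 := by push_cast; ring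
    rw [hmc]
    rcases hy m with h | h
    · -- y m = 1
      have hb : ((range (m + 1)).filter (fun j => y j = -1)).card
          = ((range m).filter (fun j => y j = -1)).card := by
        rw [range_add_one, filter_insert, if_neg (by rw [h]; decide)]
      have ha : (((range (m + 1)).filter (fun j => y j = 1)).card : ℝ)
          = ((range m).filter (fun j => y j = 1)).card + 1 := by
        rw [range_add_one, filter_insert, if_pos h, card_insert_of_notMem (by simp)]
        push_cast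
        ring
      rw [hb, ha, h]
      rw [h] at ih'
      have e1 : ((ρ + 1 : ℤ) : ℝ) = (ρ:ℝ) + 1 := by push_cast; ring
      rw [e1] at ih'
      have hr : 1 ≤ -(ρ:ℝ) ∨ -(ρ:ℝ) ≤ 0 := by
        rcases le_or_gt 0 ρ with h0 | h0
        · right
          have : (0:ℝ) ≤ ρ := by exact_mod_cast h0
          linarith
        · left
          have : (ρ:ℝ) ≤ -1 := by exact_mod_cast (by omega : ρ ≤ -1)
          linarith
      have hcore := PATH_core (-(ρ:ℝ)) ((range m).filter (fun j => y j = 1)).card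
        ((range m).filter (fun j => y j = -1)).card m
        (|((ρ + 1 + ∑ k ∈ range m, y k : ℤ) : ℝ)| ^ 3)
        (∑ j ∈ range m, ((ρ + 1 + ∑ k ∈ Ico j m, y k : ℤ) : ℝ) ^ 2)
        (Nat.cast_nonneg _) (Nat.cast_nonneg _) hm hr (by
          have e2 : -(ρ:ℝ) - 1 = -((ρ:ℝ) + 1) := by ring
          rw [e2, abs_neg, neg_neg]
          linarith)
      rw [abs_neg, neg_neg] at hcore
      have e3 : (-(ρ:ℝ) - 1) ^ 2 = ((ρ:ℝ) + ((1:ℤ):ℝ)) ^ 2 := by push_cast; ring
      rw [e3] at hcore
      linarith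
    · have hb : (((range (m + 1)).filter (fun j => y j = -1)).card : ℝ)
          = ((range m).filter (fun j => y j = -1)).card + 1 := by
        rw [range_add_one, filter_insert, if_pos h, card_insert_of_notMem (by simp)]
        push_cast
        ring
      have ha : ((range (m + 1)).filter (fun j => y j = 1)).card
          = ((range m).filter (fun j => y j = 1)).card := by
        rw [range_add_one, filter_insert, if_neg (by rw [h]; decide)]
      rw [hb, ha, h]
      rw [h] at ih'
      have e1 : ((ρ + -1 : ℤ) : ℝ) = (ρ:ℝ) - 1 := by push_cast; ring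
      rw [e1] at ih'
      have hr : 1 ≤ (ρ:ℝ) ∨ (ρ:ℝ) ≤ 0 := by
        rcases le_or_gt ρ 0 with h0 | h0
        · right
          exact_mod_cast h0
        · left
          exact_mod_cast (by omega : 1 ≤ ρ)
      have hcore := PATH_core (ρ:ℝ) ((range m).filter (fun j => y j = -1)).card
        ((range m).filter (fun j => y j = 1)).card m
        (|((ρ + -1 + ∑ k ∈ range m, y k : ℤ) : ℝ)| ^ 3)
        (∑ j ∈ range m, ((ρ + -1 + ∑ k ∈ Ico j m, y k : ℤ) : ℝ) ^ 2)
        (Nat.cast_nonneg _) (Nat.cast_nonneg _) hm hr ih'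
      have e3 : ((ρ:ℝ) - 1) ^ 2 = ((ρ:ℝ) + ((-1:ℤ):ℝ)) ^ 2 := by push_cast; ring
      rw [e3] at hcore
      exact hcore

end Pool.Agent.R23.TT
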