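import Pool.Agent.R23.TT.Stm
set_option autoImplicit false
namespace Pool.Agent.R23.TT
open Finset

lemma pathx_inc (x s : ℝ) (hs : 0 ≤ s) (hx : x ≤ s) :
    (max (x + 1) 0) ^ 3 - (max x 0) ^ 3 ≤ 3 * s ^ 2 + 3 * s + 1 := by
  rcases le_or_gt 0 x with h | h
  · rw [max_eq_left (by linarith), max_eq_left h]
    nlinarith [mul_nonneg h hs]
  · rw [max_eq_right h.le]
    rcases le_or_gt 0 (x + 1) with h1 | h1
    · rw [max_eq_left h1]
      have h2 : x + 1 ≤ 1 := by linarith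
      have h3 : (x + 1) ^ 3 ≤ 1 := pow_le_one₀ h1 h2
      nlinarith
    · rw [max_eq_right h1.le]; nlinarith

lemma pathx_step (ρ : ℤ) (a m : ℝ) (ha : 0 ≤ a) (hm : 0 ≤ m) :
    |(ρ : ℝ)| ^ 3 + 2 * (max (-(ρ : ℝ) - a + 1) 0) ^ 3 + 3 * m * (m + |(ρ : ℝ) - 1|) ≤
      |(ρ : ℝ) - 1| ^ 3 + 2 * (max (-(ρ : ℝ) - a) 0) ^ 3 + 3 * ((ρ : ℝ) - 1) ^ 2 +
        3 * (m + 1) * (m + 1 + |(ρ : ℝ)|) := by
  rcases le_or_gt 1 ρ with h | h
  · have h1 : (1 : ℝ) ≤ ρ := by exact_mod_cast h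
    rw [abs_of_nonneg (by linarith : (0 : ℝ) ≤ ρ), abs_of_nonneg (by linarith : (0 : ℝ) ≤ (ρ : ℝ) - 1),
      max_eq_right (by linarith), max_eq_right (by linarith)]
    nlinarith [mul_nonneg hm (by linarith : (0 : ℝ) ≤ (ρ : ℝ))]
  · have h0 : ρ ≤ 0 := by omega
    have h1 : (ρ : ℝ) ≤ 0 := by exact_mod_cast h0
    rw [abs_of_nonpos h1, abs_of_nonpos (by linarith : (ρ : ℝ) - 1 ≤ 0)]
    obtain ⟨s, hs⟩ : ∃ s : ℝ, s = -(ρ : ℝ) := ⟨_, rfl⟩
    have hs0 : 0 ≤ s := by linarith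
    have h2 := pathx_inc (-(ρ : ℝ) - a) s hs0 (by linarith)
    have e1 : (ρ : ℝ) = -s := by linarith
    rw [e1] at h2 ⊢
    nlinarith [mul_nonneg hm hs0]

theorem t_PATHx : S_PATH := by
  intro m ρ y hy
  suffices h : ∀ (m : ℕ) (ρ : ℤ), |(ρ : ℝ)| ^ 3 + |((ρ + ∑ k ∈ range m, y k : ℤ) : ℝ)| ^ 3
      - 2 * (max ((ρ : ℝ) - ((range m).filter (fun j => y j = -1)).card) 0) ^ 3
      - 2 * (max (-(ρ : ℝ) - ((range m).filter (fun j => y j = 1)).card) 0) ^ 3
      - 3 * m * ((m : ℝ) + |(ρ : ℝ)|)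
      ≤ 3 * ∑ j ∈ range m, ((ρ + ∑ k ∈ Ico j m, y k : ℤ) : ℝ) ^ 2 by
    have h1 := h m ρ
    have h2 : 3 * m * ((m : ℝ) + |(ρ : ℝ)|) ≤ 20 * ((m : ℝ) + |(ρ : ℝ)|) ^ 2 := by
      have h3 : (0 : ℝ) ≤ m := Nat.cast_nonneg _
      have h4 : 0 ≤ |(ρ : ℝ)| := abs_nonneg _
      nlinarith [mul_nonneg h3 h4]
    linarith
  clear m ρ
  intro m
  induction m with
  | zero =>
    intro ρ
    simp only [range_zero, sum_empty, filter_empty, card_empty, Nat.cast_zero, sub_zero, add_zero,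
      mul_zero, zero_mul]
    rcases le_or_gt 0 (ρ : ℝ) with h | h
    · rw [abs_of_nonneg h, max_eq_left h, max_eq_right (by linarith)]; ring_nf; rfl
    · rw [abs_of_neg h, max_eq_right h.le, max_eq_left (by linarith)]; ring_nf; rfl
  | succ m ih =>
    intro ρ
    have hsum : ∑ j ∈ range (m + 1), ((ρ + ∑ k ∈ Ico j (m + 1), y k : ℤ) : ℝ) ^ 2 =
        ∑ j ∈ range m, (((ρ + y m) + ∑ k ∈ Ico j m, y k : ℤ) : ℝ) ^ 2 + ((ρ + y m : ℤ) : ℝ) ^ 2 := by
      rw [sum_range_succ]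
      congr 1
      · apply sum_congr rfl
        intro j hj
        have hj' : j ≤ m := (mem_range.1 hj).le
        rw [sum_Ico_succ_top hj']
        congr 2; ring
      · simp
    have hend : (ρ + ∑ k ∈ range (m + 1), y k : ℤ) = (ρ + y m) + ∑ k ∈ range m, y k := by
      rw [sum_range_succ]; ring
    have ih' := ih (ρ + y m)
    rw [hsum, hend]
    have hmR : (0 : ℝ) ≤ m := Nat.cast_nonneg _
    have hf1 : (((range (m + 1)).filter (fun j => y j = -1)).card : ℝ) =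
        ((range m).filter (fun j => y j = -1)).card + (if y m = -1 then 1 else 0) := by
      rw [range_add_one, filter_insert]
      split_ifs with h
      · rw [card_insert_of_notMem (by simp)]; push_cast; ring
      · simp
    have hf2 : (((range (m + 1)).filter (fun j => y j = 1)).card : ℝ) =
        ((range m).filter (fun j => y j = 1)).card + (if y m = 1 then 1 else 0) := by
      rw [range_add_one, filter_insert]
      split_ifs with h
      · rw [card_insert_of_notMem (by simp)]; push_cast; ring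
      · simp
    rw [hf1, hf2]
    have hA : (0 : ℝ) ≤ (((range m).filter (fun j => y j = 1)).card : ℝ) := Nat.cast_nonneg _
    have hB : (0 : ℝ) ≤ (((range m).filter (fun j => y j = -1)).card : ℝ) := Nat.cast_nonneg _
    rcases hy m with h1 | h1
    · have hst := pathx_step (-ρ) (((range m).filter (fun j => y j = -1)).card : ℝ) m hB hmR
      rw [h1] at ih' ⊢
      rw [if_neg (by norm_num), if_pos rfl]
      push_cast at ih' hst ⊢
      have e1 : |-(ρ : ℝ) - 1| = |(ρ : ℝ) + 1| := by rw [← abs_neg]; congr 1; ring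
      have e2 : (-(ρ : ℝ) - 1) ^ 2 = ((ρ : ℝ) + 1) ^ 2 := by ring
      rw [abs_neg, e1, e2, neg_neg] at hst
      have e3 : (ρ : ℝ) + 1 - (((range m).filter (fun j => y j = -1)).card : ℝ) =
        (ρ : ℝ) - (((range m).filter (fun j => y j = -1)).card : ℝ) + 1 := by ring
      have e4 : -((ρ : ℝ) + 1) - (((range m).filter (fun j => y j = 1)).card : ℝ) =
        -(ρ : ℝ) - ((((range m).filter (fun j => y j = 1)).card : ℝ) + 1) := by ring
      rw [e3, e4] at ih'
      rw [add_zero]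
      linarith
    · have hst := pathx_step ρ (((range m).filter (fun j => y j = 1)).card : ℝ) m hA hmR
      rw [h1] at ih' ⊢
      rw [if_pos rfl, if_neg (by norm_num)]
      push_cast at ih' hst ⊢
      have e0 : (ρ : ℝ) + -1 = (ρ : ℝ) - 1 := by ring
      rw [e0] at ih' ⊢
      have e3 : (ρ : ℝ) - 1 - (((range m).filter (fun j => y j = -1)).card : ℝ) =
        (ρ : ℝ) - ((((range m).filter (fun j => y j = -1)).card : ℝ) + 1) := by ring
      have e4 : -((ρ : ℝ) - 1) - (((range m).filter (fun j => y j = 1)).card : ℝ) =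
        -(ρ : ℝ) - (((range m).filter (fun j => y j = 1)).card : ℝ) + 1 := by ring
      rw [e3, e4] at ih'
      rw [add_zero]
      linarith

end Pool.Agent.R23.TT
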