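import Pool.Agent.R23.TT.Stm

set_option autoImplicit false

/-! TT-RUN (helper372) -/

namespace Pool.Agent.R23.TT

open Finset

theorem t_RUN : S_RUN := by
  classical
  intro n a hn
  set A := a ⟨n - 1, by omega⟩ with hA
  have hex : ∃ m : ℕ, m < n ∧ ∀ j : Fin n, m ≤ j.val → a j = A := by
    refine ⟨n - 1, by omega, fun j hj => ?_⟩
    rw [hA]
    congr 1
    apply Fin.ext
    have := j.2
    simp only
    omega
  refine ⟨Nat.find hex, A, ⟨(Nat.find_spec hex).1, (Nat.find_spec hex).2, ?_⟩⟩
  rcases Nat.eq_zero_or_pos (Nat.find hex) with h0 | h0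
  · exact Or.inl h0
  · right
    have hlt : Nat.find hex - 1 < Nat.find hex := by omega
    have h1 := Nat.find_min hex hlt
    have h2 : Nat.find hex - 1 < n := lt_trans hlt (Nat.find_spec hex).1
    refine ⟨⟨Nat.find hex - 1, h2⟩, by simp only; omega, fun h3 => h1 ⟨h2, fun j hj => ?_⟩⟩
    rcases Nat.lt_or_ge j.val (Nat.find hex) with h4 | h4
    · have h5 : j = ⟨Nat.find hex - 1, h2⟩ := by
        apply Fin.ext
        simp only
        omega
      rw [h5]
      exact h3
    · exact (Nat.find_spec hex).2 j h4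

end Pool.Agent.R23.TT
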