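import Pool.Agent.R23.TT.Stm

set_option autoImplicit false

/-! Project TT: splitting of `X3`. -/

namespace Pool.Agent.R23.TT

open Finset

theorem t_SPLIT : S_SPLIT := by
  intro n T a m A _
  have h1 : (X3 T a m A).card = ((X3 T a m A).filter (fun p => m ≤ p.1.val)).card +
      ((X3 T a m A).filter (fun p => ¬ m ≤ p.1.val)).card :=
    (Finset.card_filter_add_card_filter_not (fun p : Fin n × Fin n × Fin n => m ≤ p.1.val)).symm
  have h2 : (X3 T a m A).filter (fun p => m ≤ p.1.val) =
      (Tri T).filter (fun p => m ≤ p.1.val) := by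
    ext p
    simp only [X3, mem_filter]
    constructor
    · rintro ⟨⟨h, _⟩, h3⟩
      exact ⟨h, h3⟩
    · rintro ⟨h, h3⟩
      have h4 : p.1 < p.2.1 := by
        simp only [Tri, mem_filter] at h
        exact h.2.1
      have h5 : p.1.val < p.2.1.val := h4
      exact ⟨⟨h, by omega, fun h6 => by omega⟩, h3⟩
  have h3 : ((X3 T a m A).filter (fun p => ¬ m ≤ p.1.val)).card =
      ∑ x ∈ univ.filter (fun j : Fin n => j.val < m ∧ a j = A), lk T m x := by
    rw [Finset.card_eq_sum_card_fiberwise (f := fun p : Fin n × Fin n × Fin n => p.1)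
      (t := univ.filter (fun j : Fin n => j.val < m ∧ a j = A))]
    · refine Finset.sum_congr rfl fun x hx => ?_
      simp only [mem_filter, mem_univ, true_and] at hx
      unfold lk
      refine Finset.card_bij (fun p _ => p.2) ?_ ?_ ?_
      · intro p hp
        simp only [X3, Tri, mem_filter, mem_univ, true_and] at hp ⊢
        obtain ⟨⟨⟨⟨_, h5, h6⟩, h7, _⟩, _⟩, h8⟩ := hp
        subst h8
        exact ⟨h7, h5, h6⟩
      · intro p hp q hq hpq
        simp only [mem_filter] at hp hq
        exact Prod.ext (hp.2.trans hq.2.symm) hpq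
      · intro q hq
        simp only [mem_filter, mem_univ, true_and] at hq
        refine ⟨(x, q), ?_, rfl⟩
        simp only [X3, Tri, mem_filter, mem_univ, true_and]
        have h5 : x < q.1 := by
          show x.val < q.1.val
          omega
        refine ⟨⟨⟨⟨h5, hq.2.1, hq.2.2⟩, hq.1, fun h6 => h6.2 hx.2⟩, by omega⟩, trivial⟩
    · intro p hp
      simp only [X3, mem_filter, coe_filter, Set.mem_setOf_eq, mem_univ, true_and] at hp ⊢
      have h5 : p.1.val < m := by omega
      refine ⟨h5, ?_⟩
      by_contra h6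
      exact hp.1.2.2 ⟨h5, h6⟩
  rw [h1, h2, h3]
  rfl

end Pool.Agent.R23.TT
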