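import Mathlib

set_option autoImplicit false

/-! Turan (3,4): coverings whose triples are monochromatic in a red-blue colouring of the pairs. -/

namespace Pool.Agent.R23.TT

open Finset

/-- every 4-set contains a member of `T` -/
def Cov {n : ℕ} (T : Finset (Finset (Fin n))) : Prop := ∀ Q : Finset (Fin n), Q.card = 4 →
  ∃ t ∈ T, t ⊆ Q

/-- all pairs in `t` have the same colour -/
def Mono {n : ℕ} (c : Fin n → Fin n → Bool) (t : Finset (Fin n)) : Prop :=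
  ∀ x ∈ t, ∀ y ∈ t, ∀ z ∈ t, ∀ w ∈ t, x ≠ y → z ≠ w → c x y = c z w

/-- the colouring of pairs is given by the type of the later vertex -/
def S_ORD : Prop := ∀ (n : ℕ) (c : Fin n → Fin n → Bool), (∀ x y, c x y = c y x) →
  (∀ Q : Finset (Fin n), Q.card = 4 → ∃ t : Finset (Fin n), t ⊆ Q ∧ t.card = 3 ∧ Mono c t) →
  ∃ (σ : Equiv.Perm (Fin n)) (a : Fin n → Bool), ∀ i j : Fin n, i < j → c (σ i) (σ j) = a j

/-- ordered situation -/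
structure Ord {n : ℕ} (T : Finset (Finset (Fin n))) (a : Fin n → Bool) : Prop where
  three : ∀ t ∈ T, t.card = 3
  cov : Cov T
  mono : ∀ i j k : Fin n, i < j → j < k → {i, j, k} ∈ T → a j = a k

/-- the final run of type `A` starts at `m` -/
structure Run {n : ℕ} (a : Fin n → Bool) (m : ℕ) (A : Bool) : Prop where
  lt : m < n
  tail : ∀ j : Fin n, m ≤ j.val → a j = A
  last : m = 0 ∨ ∃ j : Fin n, j.val + 1 = m ∧ a j ≠ A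

def S_RUN : Prop := ∀ (n : ℕ) (a : Fin n → Bool), 0 < n → ∃ (m : ℕ) (A : Bool), Run a m A

/-- numbers of vertices of the two types before the final run -/
def al {n : ℕ} (a : Fin n → Bool) (m : ℕ) (A : Bool) : ℕ :=
  (univ.filter (fun j : Fin n => j.val < m ∧ a j = A)).card
def be {n : ℕ} (a : Fin n → Bool) (m : ℕ) (A : Bool) : ℕ :=
  (univ.filter (fun j : Fin n => j.val < m ∧ a j ≠ A)).card

/-- sorted triples of `T` -/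
def Tri {n : ℕ} (T : Finset (Finset (Fin n))) : Finset (Fin n × Fin n × Fin n) :=
  univ.filter (fun p => p.1 < p.2.1 ∧ p.2.1 < p.2.2 ∧ ({p.1, p.2.1, p.2.2} : Finset (Fin n)) ∈ T)

/-- the triples that are forced -/
def F1 {n : ℕ} (a : Fin n → Bool) (m : ℕ) : Finset (Fin n × Fin n × Fin n) :=
  univ.filter (fun p => p.1 < p.2.1 ∧ p.2.1 < p.2.2 ∧ p.2.1.val < m ∧ a p.2.1 = a p.2.2)

def X2 {n : ℕ} (T : Finset (Finset (Fin n))) (a : Fin n → Bool) (m : ℕ) (A : Bool) :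
    Finset (Fin n × Fin n × Fin n) :=
  (Tri T).filter (fun p => m ≤ p.2.1.val ∧ (p.1.val < m ∧ a p.1 ≠ A))

def X3 {n : ℕ} (T : Finset (Finset (Fin n))) (a : Fin n → Bool) (m : ℕ) (A : Bool) :
    Finset (Fin n × Fin n × Fin n) :=
  (Tri T).filter (fun p => m ≤ p.2.1.val ∧ ¬ (p.1.val < m ∧ a p.1 ≠ A))

def S_TRI : Prop := ∀ (n : ℕ) (T : Finset (Finset (Fin n))), (∀ t ∈ T, t.card = 3) →
  T.card = (Tri T).card

def S_F1 : Prop := ∀ (n : ℕ) (T : Finset (Finset (Fin n))) (a : Fin n → Bool) (m : ℕ) (A : Bool),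
  Ord T a → Run a m A → F1 a m ⊆ (Tri T).filter (fun p => p.2.1.val < m)

def S_X2 : Prop := ∀ (n : ℕ) (T : Finset (Finset (Fin n))) (a : Fin n → Bool) (m : ℕ) (A : Bool),
  Ord T a → Run a m A →
  ((be a m A : ℝ) - 1) * (((n : ℝ) - m) * ((n : ℝ) - m - 1) / 2) ≤ ((X2 T a m A).card : ℝ)

/-- Goodman -/
def S_GOOD : Prop := ∀ (V : Type) [Fintype V] [DecidableEq V] (H : SimpleGraph V)
  [DecidableRel H.Adj], (H.edgeFinset.card : ℝ) *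
    (4 * (H.edgeFinset.card : ℝ) - (Fintype.card V : ℝ) ^ 2) ≤
    3 * (Fintype.card V : ℝ) * ((H.cliqueFinset 3).card : ℝ)

/-- for an `x` before the final run: `l` pairs `k < l` in the final run with `{x, k, l}` in `T` -/
def lk {n : ℕ} (T : Finset (Finset (Fin n))) (m : ℕ) (x : Fin n) : ℕ :=
  ((univ : Finset (Fin n × Fin n)).filter (fun p => m ≤ p.1.val ∧ p.1 < p.2 ∧
    ({x, p.1, p.2} : Finset (Fin n)) ∈ T)).card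

/-- triples inside the final run -/
def tl {n : ℕ} (T : Finset (Finset (Fin n))) (m : ℕ) : ℕ :=
  ((Tri T).filter (fun p => m ≤ p.1.val)).card

/-- from Goodman: with `r = n - m` and `e = r(r-1)/2 - lk x` -/
def S_TAIL : Prop := ∀ (n : ℕ) (T : Finset (Finset (Fin n))) (m : ℕ) (x : Fin n), Cov T →
  (∀ t ∈ T, t.card = 3) → m < n → x.val < m →
  (((n : ℝ) - m) * ((n : ℝ) - m - 1) / 2 - lk T m x) *
    (4 * (((n : ℝ) - m) * ((n : ℝ) - m - 1) / 2 - lk T m x) - ((n : ℝ) - m) ^ 2) ≤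
    3 * ((n : ℝ) - m) * (tl T m : ℝ)

/-- splitting of `X3` -/
def S_SPLIT : Prop := ∀ (n : ℕ) (T : Finset (Finset (Fin n))) (a : Fin n → Bool) (m : ℕ)
  (A : Bool), m < n → (X3 T a m A).card =
    tl T m + ∑ x ∈ univ.filter (fun j : Fin n => j.val < m ∧ a j = A), lk T m x

def S_X3 : Prop := ∀ (n : ℕ) (T : Finset (Finset (Fin n))) (a : Fin n → Bool) (m : ℕ) (A : Bool),
  Ord T a → Run a m A →
  max 0 (((n : ℝ) - m) ^ 3 - 9 / 8 * ((n : ℝ) - m) * (max (((n : ℝ) - m) - al a m A) 0) ^ 2)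
    - 20 * (n : ℝ) ^ 2 ≤ 6 * ((X3 T a m A).card : ℝ)

/-- counting `F1`; `y j = 1` if `a j = A`, `-1` otherwise -/
def S_CNT : Prop := ∀ (n : ℕ) (a : Fin n → Bool) (m : ℕ) (A : Bool) (y : ℕ → ℤ), Run a m A →
  (∀ j : Fin n, y j.val = if a j = A then 1 else -1) →
  2 * ((F1 a m).card : ℤ) = ∑ j ∈ range m, (j : ℤ) * (((m : ℤ) - 1 - j) + ((n : ℤ) - m) +
    y j * (((n : ℤ) - m) + ∑ k ∈ Ico (j + 1) m, y k))

/-- paths -/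
def S_PATH : Prop := ∀ (m : ℕ) (ρ : ℤ) (y : ℕ → ℤ), (∀ j, y j = 1 ∨ y j = -1) →
  |(ρ : ℝ)| ^ 3 + |((ρ + ∑ k ∈ range m, y k : ℤ) : ℝ)| ^ 3
    - 2 * (max ((ρ : ℝ) - ((range m).filter (fun j => y j = -1)).card) 0) ^ 3
    - 2 * (max (-(ρ : ℝ) - ((range m).filter (fun j => y j = 1)).card) 0) ^ 3
    - 20 * ((m : ℝ) + |(ρ : ℝ)|) ^ 2
  ≤ 3 * ∑ j ∈ range m, ((ρ + ∑ k ∈ Ico j m, y k : ℤ) : ℝ) ^ 2

/-- summation by parts (uses `S_PATH`) -/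
def S_SEQ : Prop := ∀ (m r : ℕ) (y : ℕ → ℤ), (∀ j, y j = 1 ∨ y j = -1) →
  (m : ℝ) ^ 3 / 2 + 3 / 2 * r * (m : ℝ) ^ 2 - 3 / 2 * m * (r : ℝ) ^ 2
    + 1 / 2 * ((r : ℝ) ^ 3 + |(((r : ℤ) + ∑ k ∈ range m, y k : ℤ) : ℝ)| ^ 3
      - 2 * (max ((r : ℝ) - ((range m).filter (fun j => y j = -1)).card) 0) ^ 3)
    - 40 * ((m : ℝ) + r) ^ 2
  ≤ 3 * ((∑ j ∈ range m, (j : ℤ) * (((m : ℤ) - 1 - j) + (r : ℤ) +
    y j * ((r : ℤ) + ∑ k ∈ Ico (j + 1) m, y k)) : ℤ) : ℝ)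

/-- pairs of the other colour -/
def S_BLUE : Prop := ∀ (n : ℕ) (a : Fin n → Bool) (m : ℕ) (A : Bool), Run a m A →
  (((univ : Finset (Fin n × Fin n)).filter (fun p => p.1 < p.2 ∧ a p.2 ≠ A)).card : ℝ) ≤
    (al a m A : ℝ) * (be a m A) + (be a m A : ℝ) ^ 2 / 2

/-! final inequalities -/
def S_FIN1 : Prop := ∀ a b r : ℝ, 0 ≤ a → 0 ≤ b → b ≤ r → a ≤ r →
  3 / 25 * (a + b + r) ^ 2 ≤ a * b + b ^ 2 / 2 →
  4 / 9 * (a + b + r) ^ 3 ≤ a ^ 3 + b ^ 3 + r ^ 3 + 3 * a ^ 2 * r + 3 * r ^ 2 * b + 3 * b ^ 2 * a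
    - 9 / 8 * r * (r - a) ^ 2
def S_FIN2 : Prop := ∀ a b r : ℝ, 0 ≤ a → 0 ≤ b → b ≤ r → r ≤ a →
  4 / 9 * (a + b + r) ^ 3 ≤ a ^ 3 + b ^ 3 + r ^ 3 + 3 * a ^ 2 * r + 3 * r ^ 2 * b + 3 * b ^ 2 * a
def S_FIN3 : Prop := ∀ a b r : ℝ, 0 ≤ a → 0 ≤ r → r ≤ b → b ≤ r + a → a ≤ r →
  3 / 25 * (a + b + r) ^ 2 ≤ a * b + b ^ 2 / 2 →
  4 / 9 * (a + b + r) ^ 3 ≤ (a + b) ^ 3 / 2 + 3 / 2 * r * (a + b) ^ 2 - 3 / 2 * (a + b) * r ^ 2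
    + 1 / 2 * (r ^ 3 + (r + a - b) ^ 3) + 3 * b * r ^ 2 + r ^ 3 - 9 / 8 * r * (r - a) ^ 2
def S_FIN4 : Prop := ∀ a b r : ℝ, 0 ≤ a → 0 ≤ r → r ≤ b → b ≤ r + a → r ≤ a →
  4 / 9 * (a + b + r) ^ 3 ≤ (a + b) ^ 3 / 2 + 3 / 2 * r * (a + b) ^ 2 - 3 / 2 * (a + b) * r ^ 2
    + 1 / 2 * (r ^ 3 + (r + a - b) ^ 3) + 3 * b * r ^ 2 + r ^ 3
def S_FIN5 : Prop := ∀ a b r : ℝ, 0 ≤ a → 0 ≤ r → r + a ≤ b → a ≤ r →
  4 / 9 * (a + b + r) ^ 3 ≤ (a + b) ^ 3 / 2 + 3 / 2 * r * (a + b) ^ 2 - 3 / 2 * (a + b) * r ^ 2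
    + 1 / 2 * (r ^ 3 + (b - a - r) ^ 3) + 3 * b * r ^ 2 + r ^ 3 - 9 / 8 * r * (r - a) ^ 2
def S_FIN6 : Prop := ∀ a b r : ℝ, 0 ≤ a → 0 ≤ r → r + a ≤ b → r ≤ a →
  4 / 9 * (a + b + r) ^ 3 ≤ (a + b) ^ 3 / 2 + 3 / 2 * r * (a + b) ^ 2 - 3 / 2 * (a + b) * r ^ 2
    + 1 / 2 * (r ^ 3 + (b - a - r) ^ 3) + 3 * b * r ^ 2 + r ^ 3

end Pool.Agent.R23.TT
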