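import Pool.Agent.R23.TT.Stm

/-! Turan (3,4): the final run, from Goodman's inequality. -/

set_option autoImplicit false
set_option maxHeartbeats 400000

namespace Pool.Agent.R23.TT

open Finset

namespace TAIL

theorem edge_count {V : Type} [Fintype V] [DecidableEq V] [LinearOrder V] (H : SimpleGraph V)
    [DecidableRel H.Adj] :
    ((univ : Finset (V × V)).filter (fun p => p.1 < p.2 ∧ H.Adj p.1 p.2)).card =
      H.edgeFinset.card := by
  classical
  refine Finset.card_bij (fun p _ => s(p.1, p.2)) ?_ ?_ ?_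
  · intro p hp
    rw [Finset.mem_filter] at hp
    rw [SimpleGraph.mem_edgeFinset, SimpleGraph.mem_edgeSet]
    exact hp.2.2
  · intro p hp q hq h
    rw [Finset.mem_filter] at hp hq
    rw [Sym2.eq_iff] at h
    rcases h with h | h
    · exact Prod.ext h.1 h.2
    · have h1 := hp.2.1
      rw [h.1, h.2] at h1
      exact absurd h1 (not_lt.2 hq.2.1.le)
  · intro e he
    induction e using Sym2.ind with
    | _ a b =>
      rw [SimpleGraph.mem_edgeFinset, SimpleGraph.mem_edgeSet] at he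
      rcases lt_or_gt_of_ne he.ne with h | h
      · exact ⟨(a, b), Finset.mem_filter.2 ⟨Finset.mem_univ _, h, he⟩, rfl⟩
      · exact ⟨(b, a), Finset.mem_filter.2 ⟨Finset.mem_univ _, h, he.symm⟩, Sym2.eq_swap⟩

/-- The vertices of the final run. -/
abbrev VV (n m : ℕ) : Type := {k : Fin n // m ≤ k.val}

theorem card_VV {n m : ℕ} (h : m < n) : Fintype.card (VV n m) = n - m := by
  rw [← Fintype.card_fin (n - m)]
  refine Fintype.card_congr ⟨fun k => ⟨k.1.val - m, by have := k.1.2; have := k.2; omega⟩,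
    fun i => ⟨⟨i.val + m, by have := i.2; omega⟩, by simp⟩, fun k => ?_, fun i => ?_⟩
  · apply Subtype.ext
    apply Fin.ext
    have := k.2
    simp only
    omega
  · apply Fin.ext
    simp

/-- The graph of the missing pairs. -/
def HH {n : ℕ} (T : Finset (Finset (Fin n))) (m : ℕ) (x : Fin n) : SimpleGraph (VV n m) where
  Adj k l := k ≠ l ∧ ({x, k.1, l.1} : Finset (Fin n)) ∉ T
  symm := ⟨fun k l h => ⟨h.1.symm, by rw [Finset.pair_comm]; exact h.2⟩⟩
  loopless := ⟨fun k h => h.1 rfl⟩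

theorem sorted {V : Type} [DecidableEq V] [LinearOrder V] (H : SimpleGraph V) {a b c : V}
    (hab : H.Adj a b) (hac : H.Adj a c) (hbc : H.Adj b c) :
    ∃ k l q : V, k < l ∧ l < q ∧ H.Adj k l ∧ H.Adj k q ∧ H.Adj l q ∧
      ({a, b, c} : Finset V) = {k, l, q} := by
  rcases lt_or_gt_of_ne hab.ne with h1 | h1 <;> rcases lt_or_gt_of_ne hac.ne with h2 | h2 <;>
    rcases lt_or_gt_of_ne hbc.ne with h3 | h3
  · exact ⟨a, b, c, h1, h3, hab, hac, hbc, rfl⟩
  · exact ⟨a, c, b, h2, h3, hac, hab, hbc.symm, by ext v; simp only [mem_insert, mem_singleton]; tauto⟩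
  · exact absurd (h1.trans h3) (not_lt.2 h2.le)
  · exact ⟨c, a, b, h2, h1, hac.symm, hbc.symm, hab, by ext v; simp only [mem_insert, mem_singleton]; tauto⟩
  · exact ⟨b, a, c, h1, h2, hab.symm, hbc, hac, by ext v; simp only [mem_insert, mem_singleton]; tauto⟩
  · exact absurd (h3.trans h1) (not_lt.2 h2.le)
  · exact ⟨b, c, a, h3, h2, hbc, hab.symm, hac.symm, by ext v; simp only [mem_insert, mem_singleton]; tauto⟩
  · exact ⟨c, b, a, h3, h1, hbc.symm, hac.symm, hab.symm, by ext v; simp only [mem_insert, mem_singleton]; tauto⟩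

theorem in_T {n : ℕ} {T : Finset (Finset (Fin n))} (hT : Cov T) (h3 : ∀ t ∈ T, t.card = 3)
    {x k l q : Fin n} (hxk : x < k) (hkl : k < l) (hlq : l < q) (h1 : ({x, k, l} : Finset (Fin n)) ∉ T)
    (h2 : ({x, k, q} : Finset (Fin n)) ∉ T) (h4 : ({x, l, q} : Finset (Fin n)) ∉ T) :
    ({k, l, q} : Finset (Fin n)) ∈ T := by
  have a1 : x ≠ k := hxk.ne
  have a2 : x ≠ l := (hxk.trans hkl).ne
  have a3 : x ≠ q := (hxk.trans (hkl.trans hlq)).ne
  have a4 : k ≠ l := hkl.ne
  have a5 : k ≠ q := (hkl.trans hlq).ne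
  have a6 : l ≠ q := hlq.ne
  have hc : ({x, k, l, q} : Finset (Fin n)).card = 4 := by
    rw [Finset.card_insert_of_notMem (by simp [a1, a2, a3]),
      Finset.card_insert_of_notMem (by simp [a4, a5]), Finset.card_pair a6]
  obtain ⟨t, ht, hts⟩ := hT _ hc
  have htc := h3 t ht
  obtain ⟨w, hw, hwt⟩ := Finset.exists_mem_notMem_of_card_lt_card (s := t) (t := {x, k, l, q})
    (by omega)
  have e1 : t = ({x, k, l, q} : Finset (Fin n)).erase w :=
    Finset.eq_of_subset_of_card_le (fun v hv => Finset.mem_erase.2 ⟨fun h => hwt (h ▸ hv), hts hv⟩)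
      (by rw [Finset.card_erase_of_mem hw, hc, htc])
  rw [Finset.mem_insert, Finset.mem_insert, Finset.mem_insert, Finset.mem_singleton] at hw
  rcases hw with rfl | rfl | rfl | rfl
  · have e2 : ({w, k, l, q} : Finset (Fin n)).erase w = {k, l, q} := by ext v; grind
    rw [← e2, ← e1]
    exact ht
  · have e2 : ({x, w, l, q} : Finset (Fin n)).erase w = {x, l, q} := by ext v; grind
    rw [e2] at e1
    exact absurd (e1 ▸ ht) h4
  · have e2 : ({x, k, w, q} : Finset (Fin n)).erase w = {x, k, q} := by ext v; grind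
    rw [e2] at e1
    exact absurd (e1 ▸ ht) h2
  · have e2 : ({x, k, l, w} : Finset (Fin n)).erase w = {x, k, l} := by ext v; grind
    rw [e2] at e1
    exact absurd (e1 ▸ ht) h1

end TAIL

open TAIL in
theorem t_TAIL (hG : S_GOOD) : S_TAIL := by
  classical
  intro n T m x hT h3 hm hx
  have hcard := card_VV hm
  have hr : ((n - m : ℕ) : ℝ) = (n : ℝ) - m := by
    rw [Nat.cast_sub hm.le]
  have hgood := hG (VV n m) (HH T m x)
  rw [hcard, hr] at hgood
  -- the number of edges
  have hall := edge_count (⊤ : SimpleGraph (VV n m))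
  rw [SimpleGraph.card_edgeFinset_top_eq_card_choose_two, hcard] at hall
  have hH := edge_count (HH T m x)
  have hlk : ((univ : Finset (VV n m × VV n m)).filter
      (fun p => p.1 < p.2 ∧ ¬ (HH T m x).Adj p.1 p.2)).card = lk T m x := by
    unfold lk
    refine Finset.card_bij (fun p _ => (p.1.1, p.2.1)) ?_ ?_ ?_
    · intro p hp
      rw [Finset.mem_filter] at hp ⊢
      refine ⟨Finset.mem_univ _, p.1.2, hp.2.1, ?_⟩
      by_contra h
      exact hp.2.2 ⟨hp.2.1.ne, h⟩
    · intro p _ q _ h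
      exact Prod.ext (Subtype.ext (congrArg Prod.fst h)) (Subtype.ext (congrArg Prod.snd h))
    · intro p hp
      rw [Finset.mem_filter] at hp
      obtain ⟨-, h1, h2, h4⟩ := hp
      have h5 : m ≤ p.2.val := h1.trans (Fin.lt_def.1 h2).le
      exact ⟨(⟨p.1, h1⟩, ⟨p.2, h5⟩), Finset.mem_filter.2 ⟨Finset.mem_univ _, h2,
        fun h => h.2 h4⟩, rfl⟩
  have hsum : (HH T m x).edgeFinset.card + lk T m x = (n - m).choose 2 := by
    rw [← hH, ← hlk, ← hall, ← Finset.card_union_of_disjoint]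
    · congr 1
      ext p
      simp only [Finset.mem_union, Finset.mem_filter, Finset.mem_univ, true_and,
        SimpleGraph.top_adj]
      constructor
      · rintro (h | h)
        · exact ⟨h.1, h.1.ne⟩
        · exact ⟨h.1, h.1.ne⟩
      · rintro ⟨h, -⟩
        by_cases h1 : (HH T m x).Adj p.1 p.2
        · exact Or.inl ⟨h, h1⟩
        · exact Or.inr ⟨h, h1⟩
    · rw [Finset.disjoint_left]
      intro p h1 h2
      rw [Finset.mem_filter] at h1 h2
      exact h2.2.2 h1.2.2
  have hE : ((HH T m x).edgeFinset.card : ℝ) =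
      ((n : ℝ) - m) * ((n : ℝ) - m - 1) / 2 - lk T m x := by
    have h1 : (((HH T m x).edgeFinset.card : ℝ) + (lk T m x : ℝ)) =
        ((n - m : ℕ) : ℝ) * (((n - m : ℕ) : ℝ) - 1) / 2 := by
      rw [← Nat.cast_choose_two]
      exact_mod_cast hsum
    rw [hr] at h1
    linarith
  -- the number of triangles
  have hcl : ((HH T m x).cliqueFinset 3).card ≤ tl T m := by
    unfold tl
    refine Finset.card_le_card_of_surjOn (fun p => (univ : Finset (VV n m)).filter
      (fun v => v.1 = p.1 ∨ v.1 = p.2.1 ∨ v.1 = p.2.2)) ?_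
    intro s hs
    rw [Finset.mem_coe, SimpleGraph.mem_cliqueFinset_iff, SimpleGraph.is3Clique_iff] at hs
    obtain ⟨a, b, c, hab, hac, hbc, rfl⟩ := hs
    obtain ⟨k, l, q, hkl, hlq, h1, h2, h4, he⟩ := sorted (HH T m x) hab hac hbc
    refine ⟨(k.1, l.1, q.1), ?_, ?_⟩
    · rw [Finset.mem_coe, Finset.mem_filter, Tri, Finset.mem_filter]
      have hxk : x < k.1 := Fin.lt_def.2 (lt_of_lt_of_le hx k.2)
      exact ⟨⟨Finset.mem_univ _, hkl, hlq, in_T hT h3 hxk hkl hlq h1.2 h2.2 h4.2⟩, k.2⟩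
    · simp only
      rw [he]
      ext v
      simp only [Finset.mem_filter, Finset.mem_univ, true_and, Finset.mem_insert,
        Finset.mem_singleton, Subtype.ext_iff]
  have hcl' : (((HH T m x).cliqueFinset 3).card : ℝ) ≤ (tl T m : ℝ) := by exact_mod_cast hcl
  rw [← hE]
  refine le_trans ?_ (mul_le_mul_of_nonneg_left hcl' ?_)
  · convert hgood using 2
  · have : (m : ℝ) < n := by exact_mod_cast hm
    linarith

end Pool.Agent.R23.TT
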