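import Pool.Agent.R23.TT.Stm

set_option autoImplicit false

/-! TT-TRI (helper372) -/

namespace Pool.Agent.R23.TT

open Finset

theorem t_TRI : S_TRI := by
  classical
  intro n T hT
  symm
  refine Finset.card_nbij (fun p => ({p.1, p.2.1, p.2.2} : Finset (Fin n))) ?_ ?_ ?_
  · intro p hp
    exact (mem_filter.1 (Finset.mem_coe.1 hp)).2.2.2
  · rintro ⟨a, b, c⟩ hp ⟨a', b', c'⟩ hq h
    obtain ⟨-, h1, h2, -⟩ := mem_filter.1 (Finset.mem_coe.1 hp)
    obtain ⟨-, h3, h4, -⟩ := mem_filter.1 (Finset.mem_coe.1 hq)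
    simp only at h1 h2 h3 h4 h
    have e1 : a ∈ ({a', b', c'} : Finset (Fin n)) := by rw [← h]; simp
    have e2 : b ∈ ({a', b', c'} : Finset (Fin n)) := by rw [← h]; simp
    have e3 : c ∈ ({a', b', c'} : Finset (Fin n)) := by rw [← h]; simp
    have e4 : a' ∈ ({a, b, c} : Finset (Fin n)) := by rw [h]; simp
    have e5 : b' ∈ ({a, b, c} : Finset (Fin n)) := by rw [h]; simp
    have e6 : c' ∈ ({a, b, c} : Finset (Fin n)) := by rw [h]; simp
    simp only [mem_insert, mem_singleton] at e1 e2 e3 e4 e5 e6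
    have f1 : a = a' := by omega
    have f2 : b = b' := by omega
    have f3 : c = c' := by omega
    rw [f1, f2, f3]
  · intro t ht
    have ht' := Finset.mem_coe.1 ht
    have h3 := hT t ht'
    have himg := Finset.image_orderEmbOfFin_univ t h3
    set f := t.orderEmbOfFin h3 with hf
    have e : ({f 0, f 1, f 2} : Finset (Fin n)) = t := by
      rw [← himg]
      ext x
      simp only [mem_insert, mem_singleton, mem_image, mem_univ, true_and]
      constructor
      · rintro (h | h | h)
        · exact ⟨0, h.symm⟩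
        · exact ⟨1, h.symm⟩
        · exact ⟨2, h.symm⟩
      · rintro ⟨i, rfl⟩
        fin_cases i
        · exact Or.inl rfl
        · exact Or.inr (Or.inl rfl)
        · exact Or.inr (Or.inr rfl)
    refine ⟨(f 0, f 1, f 2), ?_, e⟩
    refine Finset.mem_coe.2 (mem_filter.2 ⟨mem_univ _, ?_, ?_, ?_⟩)
    · exact f.strictMono (by decide)
    · exact f.strictMono (by decide)
    · change ({f 0, f 1, f 2} : Finset (Fin n)) ∈ T
      rw [e]
      exact ht'

end Pool.Agent.R23.TT
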