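import Pool.Agent.R23.TT.TAIL

/-! Turan (3,4): triples with two vertices in the final run. -/

set_option autoImplicit false
set_option maxHeartbeats 400000

namespace Pool.Agent.R23.TT

open Finset

namespace X2P

theorem missing {n : ℕ} {T : Finset (Finset (Fin n))} (hT : Cov T) (h3 : ∀ t ∈ T, t.card = 3)
    {b b' k l : Fin n} (hbb : b < b') (hbk : b' < k) (hkl : k < l) :
    ({b', k, l} : Finset (Fin n)) ∈ T ∨ ({b, k, l} : Finset (Fin n)) ∈ T ∨
      ({b, b', l} : Finset (Fin n)) ∈ T ∨ ({b, b', k} : Finset (Fin n)) ∈ T := by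
  have a1 : b ≠ b' := hbb.ne
  have a2 : b ≠ k := (hbb.trans hbk).ne
  have a3 : b ≠ l := (hbb.trans (hbk.trans hkl)).ne
  have a4 : b' ≠ k := hbk.ne
  have a5 : b' ≠ l := (hbk.trans hkl).ne
  have a6 : k ≠ l := hkl.ne
  have hc : ({b, b', k, l} : Finset (Fin n)).card = 4 := by
    rw [Finset.card_insert_of_notMem (by simp [a1, a2, a3]),
      Finset.card_insert_of_notMem (by simp [a4, a5]), Finset.card_pair a6]
  obtain ⟨t, ht, hts⟩ := hT _ hc
  have htc := h3 t ht
  obtain ⟨w, hw, hwt⟩ := Finset.exists_mem_notMem_of_card_lt_card (s := t) (t := {b, b', k, l})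
    (by omega)
  have e1 : t = ({b, b', k, l} : Finset (Fin n)).erase w :=
    Finset.eq_of_subset_of_card_le (fun v hv => Finset.mem_erase.2 ⟨fun h => hwt (h ▸ hv), hts hv⟩)
      (by rw [Finset.card_erase_of_mem hw, hc, htc])
  rw [Finset.mem_insert, Finset.mem_insert, Finset.mem_insert, Finset.mem_singleton] at hw
  rcases hw with rfl | rfl | rfl | rfl
  · left
    have e2 : ({w, b', k, l} : Finset (Fin n)).erase w = {b', k, l} := by ext v; grind
    rw [← e2, ← e1]
    exact ht
  · right; left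
    have e2 : ({b, w, k, l} : Finset (Fin n)).erase w = {b, k, l} := by ext v; grind
    rw [← e2, ← e1]
    exact ht
  · right; right; left
    have e2 : ({b, b', w, l} : Finset (Fin n)).erase w = {b, b', l} := by ext v; grind
    rw [← e2, ← e1]
    exact ht
  · right; right; right
    have e2 : ({b, b', k, w} : Finset (Fin n)).erase w = {b, b', k} := by ext v; grind
    rw [← e2, ← e1]
    exact ht

theorem pairs_card {n m : ℕ} (hm : m < n) :
    ((univ : Finset (Fin n × Fin n)).filter (fun p => m ≤ p.1.val ∧ p.1 < p.2)).card =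
      (n - m).choose 2 := by
  classical
  have hall := TAIL.edge_count (⊤ : SimpleGraph (TAIL.VV n m))
  rw [SimpleGraph.card_edgeFinset_top_eq_card_choose_two, TAIL.card_VV hm] at hall
  rw [← hall]
  symm
  refine Finset.card_bij (fun p _ => (p.1.1, p.2.1)) ?_ ?_ ?_
  · intro p hp
    rw [Finset.mem_filter] at hp ⊢
    exact ⟨Finset.mem_univ _, p.1.2, hp.2.1⟩
  · intro p _ q _ h
    exact Prod.ext (Subtype.ext (congrArg Prod.fst h)) (Subtype.ext (congrArg Prod.snd h))
  · intro p hp
    rw [Finset.mem_filter] at hp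
    obtain ⟨-, h1, h2⟩ := hp
    have h5 : m ≤ p.2.val := h1.trans (Fin.lt_def.1 h2).le
    refine ⟨(⟨p.1, h1⟩, ⟨p.2, h5⟩), Finset.mem_filter.2 ⟨Finset.mem_univ _, h2, ?_⟩, rfl⟩
    rw [SimpleGraph.top_adj]
    intro h
    exact h2.ne (congrArg Subtype.val h)

end X2P

open X2P in
theorem t_X2 : S_X2 := by
  classical
  intro n T a m A hO hR
  have hm := hR.lt
  set P := (univ : Finset (Fin n × Fin n)).filter (fun p => m ≤ p.1.val ∧ p.1 < p.2) with hP
  have hmaps : Set.MapsTo (fun p : Fin n × Fin n × Fin n => p.2)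
      (X2 T a m A : Set (Fin n × Fin n × Fin n)) (P : Set (Fin n × Fin n)) := by
    intro p hp
    rw [Finset.mem_coe, X2, Finset.mem_filter, Tri, Finset.mem_filter] at hp
    rw [Finset.mem_coe, hP, Finset.mem_filter]
    exact ⟨Finset.mem_univ _, hp.2.1, hp.1.2.2.1⟩
  have hsum := Finset.card_eq_sum_card_fiberwise hmaps
  have hfib : ∀ q ∈ P, be a m A ≤
      ((X2 T a m A).filter (fun p => p.2 = q)).card + 1 := by
    intro q hq
    rw [hP, Finset.mem_filter] at hq
    obtain ⟨-, hk, hkl⟩ := hq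
    have hl : m ≤ q.2.val := hk.trans (Fin.lt_def.1 hkl).le
    have hbad : ((univ.filter (fun j : Fin n => j.val < m ∧ a j ≠ A)).filter
        (fun b => ¬ ({b, q.1, q.2} : Finset (Fin n)) ∈ T)).card ≤ 1 := by
      rw [Finset.card_le_one]
      have key : ∀ b b' : Fin n, b'.val < m → a b' ≠ A →
          ({b, q.1, q.2} : Finset (Fin n)) ∉ T → ({b', q.1, q.2} : Finset (Fin n)) ∉ T →
          ¬ b < b' := by
        intro b b' hb' ha h1 h2 hlt
        have hbk : b' < q.1 := Fin.lt_def.2 (lt_of_lt_of_le hb' hk)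
        rcases missing hO.cov hO.three hlt hbk hkl with h | h | h | h
        · exact h2 h
        · exact h1 h
        · exact ha ((hO.mono _ _ _ hlt (hbk.trans hkl) h).trans (hR.tail _ hl))
        · exact ha ((hO.mono _ _ _ hlt hbk h).trans (hR.tail _ hk))
      intro b hb b' hb'
      rw [Finset.mem_filter, Finset.mem_filter] at hb hb'
      rcases lt_trichotomy b b' with h | h | h
      · exact absurd h (key b b' hb'.1.2.1 hb'.1.2.2 hb.2 hb'.2)
      · exact h
      · exact absurd h (key b' b hb.1.2.1 hb.1.2.2 hb'.2 hb.2)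
    have hgood : ((univ.filter (fun j : Fin n => j.val < m ∧ a j ≠ A)).filter
        (fun b => ({b, q.1, q.2} : Finset (Fin n)) ∈ T)).card ≤
        ((X2 T a m A).filter (fun p => p.2 = q)).card := by
      refine Finset.card_le_card_of_injOn (fun b => (b, q)) ?_ ?_
      · intro b hb
        rw [Finset.mem_coe, Finset.mem_filter, Finset.mem_filter] at hb
        rw [Finset.mem_coe, Finset.mem_filter, X2, Finset.mem_filter, Tri, Finset.mem_filter]
        have hbk : b < q.1 := Fin.lt_def.2 (lt_of_lt_of_le hb.1.2.1 hk)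
        exact ⟨⟨⟨Finset.mem_univ _, hbk, hkl, hb.2⟩, hk, hb.1.2⟩, rfl⟩
      · intro b _ b' _ h
        exact congrArg Prod.fst h
    have hadd := Finset.card_filter_add_card_filter_not
      (s := univ.filter (fun j : Fin n => j.val < m ∧ a j ≠ A))
      (fun b => ({b, q.1, q.2} : Finset (Fin n)) ∈ T)
    unfold be
    omega
  have hreal : (P.card : ℝ) * ((be a m A : ℝ) - 1) ≤ ((X2 T a m A).card : ℝ) := by
    rw [hsum, Nat.cast_sum, ← nsmul_eq_mul]
    refine Finset.card_nsmul_le_sum _ _ _ fun q hq => ?_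
    have h1 : (be a m A : ℝ) ≤ (((X2 T a m A).filter (fun p => p.2 = q)).card : ℝ) + 1 := by
      exact_mod_cast hfib q hq
    linarith
  have hPc : (P.card : ℝ) = ((n : ℝ) - m) * ((n : ℝ) - m - 1) / 2 := by
    rw [hP, pairs_card hm, Nat.cast_choose_two, Nat.cast_sub hm.le]
  rw [← hPc, mul_comm]
  exact hreal

end Pool.Agent.R23.TT
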