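import Pool.Agent.R23.TT.Stm

set_option autoImplicit false

namespace Pool.Agent.R23.TT

open Finset

theorem t_X3 (hT : S_TAIL) (hS : S_SPLIT) : S_X3 := by
  intro n T a m A hO hR
  have hmn := hR.lt
  have hmn' : (m : ℝ) + 1 ≤ n := by exact_mod_cast hmn
  have hm0 : (0 : ℝ) ≤ m := Nat.cast_nonneg m
  have hsplit := hS n T a m A hmn
  have hX0 : (0 : ℝ) ≤ ((X3 T a m A).card : ℝ) := Nat.cast_nonneg _
  have hα0 : (0 : ℝ) ≤ (al a m A : ℝ) := Nat.cast_nonneg _
  have main : ((n : ℝ) - m) ^ 3 - 9 / 8 * ((n : ℝ) - m) *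
      (max (((n : ℝ) - m) - al a m A) 0) ^ 2 - 3 * ((n : ℝ) - m) ^ 2 ≤
        6 * ((X3 T a m A).card : ℝ) ∨
      ((n : ℝ) - m) ^ 3 - 9 / 8 * ((n : ℝ) - m) *
      (max (((n : ℝ) - m) - al a m A) 0) ^ 2 ≤ 0 := by
    rcases (univ.filter (fun j : Fin n => j.val < m ∧ a j = A)).eq_empty_or_nonempty with h0 | hne
    · right
      have h1 : al a m A = 0 := by
        unfold al
        rw [h0, card_empty]
      rw [h1]
      have hr1 : 1 ≤ (n : ℝ) - m := by linarith
      generalize (n : ℝ) - m = r at hr1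
      have h2 : max (r - ((0 : ℕ) : ℝ)) 0 = r := by
        rw [Nat.cast_zero, sub_zero]
        exact max_eq_left (by linarith)
      rw [h2]
      have h3 : 0 ≤ r ^ 3 := by positivity
      nlinarith
    · left
      obtain ⟨x, hx, hmin⟩ := exists_min_image _ (fun x => lk T m x) hne
      have hxm : x.val < m := (mem_filter.1 hx).2.1
      have htail := hT n T m x hO.cov hO.three hmn hxm
      have hsum : (al a m A) * lk T m x ≤
          ∑ x ∈ univ.filter (fun j : Fin n => j.val < m ∧ a j = A), lk T m x := by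
        have h1 := Finset.card_nsmul_le_sum
          (univ.filter (fun j : Fin n => j.val < m ∧ a j = A)) (fun x => lk T m x)
          (lk T m x) (fun y hy => hmin y hy)
        rw [smul_eq_mul] at h1
        exact h1
      have hX : (tl T m : ℝ) + (al a m A : ℝ) * (lk T m x : ℝ) ≤ ((X3 T a m A).card : ℝ) := by
        rw [hsplit]
        have h2 : ((al a m A * lk T m x : ℕ) : ℝ) ≤
            ((∑ x ∈ univ.filter (fun j : Fin n => j.val < m ∧ a j = A), lk T m x : ℕ) : ℝ) := by
          exact_mod_cast hsum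
        rw [Nat.cast_mul] at h2
        rw [Nat.cast_add]
        linarith
      have hl0 : (0 : ℝ) ≤ (lk T m x : ℝ) := Nat.cast_nonneg _
      have hr1 : 1 ≤ (n : ℝ) - m := by linarith
      revert htail hX hl0 hα0 hr1
      generalize (n : ℝ) - m = r
      generalize (lk T m x : ℝ) = l
      generalize (al a m A : ℝ) = α
      generalize (tl T m : ℝ) = t
      generalize ((X3 T a m A).card : ℝ) = X
      intro hα0 htail hX hl0 hr1
      have hrpos : 0 < r := by linarith
      -- multiply by r
      have key : r ^ 4 - 3 * r ^ 3 + (8 * l ^ 2 - 6 * l * r * (r - α)) ≤ r * (6 * X) := by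
        have h1 : 2 * ((r * (r - 1) / 2 - l) * (4 * (r * (r - 1) / 2 - l) - r ^ 2)) =
            r ^ 4 - 3 * r ^ 3 - 6 * l * r ^ 2 + 8 * l ^ 2 + 8 * l * r + 2 * r ^ 2 := by ring
        have h2 : r * (6 * (t + α * l)) ≤ r * (6 * X) := by
          apply mul_le_mul_of_nonneg_left _ hrpos.le
          linarith
        have h3 : 0 ≤ l * r := mul_nonneg hl0 hrpos.le
        nlinarith
      have goal' : r * (r ^ 3 - 9 / 8 * r * (max (r - α) 0) ^ 2 - 3 * r ^ 2) ≤ r * (6 * X) := by
        refine le_trans ?_ key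
        rcases le_total (r - α) 0 with h | h
        · rw [max_eq_right h]
          have h4 : 0 ≤ l * r * (α - r) := mul_nonneg (mul_nonneg hl0 hrpos.le) (by linarith)
          nlinarith [sq_nonneg l]
        · rw [max_eq_left h]
          nlinarith [sq_nonneg (l - 3 / 8 * r * (r - α))]
      exact le_of_mul_le_mul_left goal' hrpos
  have hrn : ((n : ℝ) - m) ^ 2 ≤ (n : ℝ) ^ 2 := by
    apply pow_le_pow_left₀ (by linarith) (by linarith)
  rw [sub_le_iff_le_add]
  have hn2 : 0 ≤ (n : ℝ) ^ 2 := by positivity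
  refine max_le (by linarith) ?_
  rcases main with h | h
  · linarith
  · linarith

end Pool.Agent.R23.TT
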